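import Mathlib

set_option autoImplicit false

open Finset
open scoped Pointwise

namespace Helper12DS

/-! ### Slices of finite subsets of `Fin (d+1) → ℤ` -/

/-- the map `y ↦ (t, y)` -/
def pre {d : ℕ} (t : ℤ) (y : Fin d → ℤ) : Fin (d + 1) → ℤ := Fin.cons t y

lemma pre_inj {d : ℕ} (t : ℤ) : Function.Injective (pre (d := d) t) := by
  intro a b h
  have := congrArg Fin.tail h
  simpa [pre] using this

lemma pre_add {d : ℕ} (s t : ℤ) (x y : Fin d → ℤ) : pre s x + pre t y = pre (s + t) (x + y) := by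
  funext i
  refine Fin.cases ?_ (fun j => ?_) i <;> simp [pre]

lemma pre_head_tail {d : ℕ} (x : Fin (d + 1) → ℤ) : pre (x 0) (Fin.tail x) = x := by
  simp [pre]

/-- the slice at height `t` -/
noncomputable def slice {d : ℕ} (A : Finset (Fin (d + 1) → ℤ)) (t : ℤ) : Finset (Fin d → ℤ) :=
  A.preimage (pre t) (pre_inj t).injOn

lemma mem_slice {d : ℕ} {A : Finset (Fin (d + 1) → ℤ)} {t : ℤ} {y : Fin d → ℤ} :
    y ∈ slice A t ↔ pre t y ∈ A := by
  simp [slice]

/-- the set of heights -/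
def heights {d : ℕ} (A : Finset (Fin (d + 1) → ℤ)) : Finset ℤ := A.image (fun x => x 0)

lemma mem_heights {d : ℕ} {A : Finset (Fin (d + 1) → ℤ)} {t : ℤ} :
    t ∈ heights A ↔ (slice A t).Nonempty := by
  constructor
  · intro h
    obtain ⟨x, hx, rfl⟩ := Finset.mem_image.1 h
    exact ⟨Fin.tail x, mem_slice.2 (by rw [pre_head_tail]; exact hx)⟩
  · rintro ⟨y, hy⟩
    exact Finset.mem_image.2 ⟨pre t y, mem_slice.1 hy, by simp [pre]⟩

lemma heights_nonempty {d : ℕ} {A : Finset (Fin (d + 1) → ℤ)} (h : A.Nonempty) :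
    (heights A).Nonempty := h.image _

lemma sum_slices {d : ℕ} (A : Finset (Fin (d + 1) → ℤ)) (E : Finset ℤ) (hE : heights A ⊆ E)
    (g : (Fin (d + 1) → ℤ) → ℝ) :
    ∑ x ∈ A, g x = ∑ t ∈ E, ∑ y ∈ slice A t, g (pre t y) := by
  have h1 : ∀ x ∈ A, x 0 ∈ E := fun x hx => hE (Finset.mem_image_of_mem _ hx)
  rw [← Finset.sum_fiberwise_of_maps_to h1]
  refine Finset.sum_congr rfl (fun t _ => ?_)
  refine Finset.sum_nbij' (fun x => Fin.tail x) (fun y => pre t y) ?_ ?_ ?_ ?_ ?_
  · intro x hx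
    rw [Finset.mem_filter] at hx
    rw [mem_slice, ← hx.2, pre_head_tail]
    exact hx.1
  · intro y hy
    rw [Finset.mem_filter]
    exact ⟨mem_slice.1 hy, by simp [pre]⟩
  · intro x hx
    rw [Finset.mem_filter] at hx
    rw [← hx.2, pre_head_tail]
  · intro y _
    simp [pre]
  · intro x hx
    rw [Finset.mem_filter] at hx
    rw [← hx.2, pre_head_tail]

lemma card_slices {d : ℕ} (A : Finset (Fin (d + 1) → ℤ)) (E : Finset ℤ) (hE : heights A ⊆ E) :
    (A.card : ℝ) = ∑ t ∈ E, ((slice A t).card : ℝ) := by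
  have := sum_slices A E hE (fun _ => 1)
  simpa using this

lemma sum_card_slices_le {d : ℕ} (A : Finset (Fin (d + 1) → ℤ)) (E : Finset ℤ) :
    ∑ t ∈ E, ((slice A t).card : ℝ) ≤ A.card := by
  rw [card_slices A (heights A ∪ E) subset_union_left]
  exact Finset.sum_le_sum_of_subset_of_nonneg subset_union_right (fun _ _ _ => by positivity)

lemma slice_add_subset {d : ℕ} (A B : Finset (Fin (d + 1) → ℤ)) (s t : ℤ) :
    slice A s + slice B t ⊆ slice (A + B) (s + t) := by
  intro z hz
  obtain ⟨x, hx, y, hy, rfl⟩ := Finset.mem_add.1 hz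
  rw [mem_slice, ← pre_add]
  exact Finset.add_mem_add (mem_slice.1 hx) (mem_slice.1 hy)

lemma card_slice_add_le {d : ℕ} (A B : Finset (Fin (d + 1) → ℤ)) (s t : ℤ) :
    ((slice A s + slice B t).card : ℝ) ≤ (slice (A + B) (s + t)).card := by
  exact_mod_cast Finset.card_le_card (slice_add_subset A B s t)

/-! ### A discrete one-dimensional Prékopa–Leindler inequality -/

lemma pl_aux : ∀ (n : ℕ) (E F : Finset ℤ) (P Q c : ℤ → ℝ) (m : ℝ), E.card + F.card ≤ n →
    (∀ t ∈ E, 0 ≤ P t) → (∀ t ∈ F, 0 ≤ Q t) → (∀ t ∈ E, P t ≤ m) → (∀ t ∈ F, Q t ≤ m) →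
    (∃ t ∈ E, P t = m) → (∃ t ∈ F, Q t = m) → (∀ s, 0 ≤ c s) →
    (∀ s ∈ E, ∀ t ∈ F, P s * Q t ≤ c (s + t) ^ 2) →
    ∑ t ∈ E, P t + ∑ t ∈ F, Q t - m ≤ ∑ s ∈ E + F, c s := by
  intro n
  induction n with
  | zero =>
    intro E F P Q c m hn _ _ _ _ hE _ _ _
    obtain ⟨t, ht, _⟩ := hE
    have : 0 < E.card := Finset.card_pos.2 ⟨t, ht⟩
    omega
  | succ n ih =>
    intro E F P Q c m hn hP hQ hPm hQm hE hF hc h
    obtain ⟨t0, ht0, ht0m⟩ := hE
    obtain ⟨u0, hu0, hu0m⟩ := hF
    have hEne : E.Nonempty := ⟨t0, ht0⟩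
    have hFne : F.Nonempty := ⟨u0, hu0⟩
    -- the least value
    obtain ⟨tp, htp, htpmin⟩ := Finset.exists_min_image E P hEne
    obtain ⟨tq, htq, htqmin⟩ := Finset.exists_min_image F Q hFne
    set ε : ℝ := min (P tp) (Q tq) with hε
    have hε0 : 0 ≤ ε := le_min (hP _ htp) (hQ _ htq)
    have hPε : ∀ t ∈ E, ε ≤ P t := fun t ht => (min_le_left _ _).trans (htpmin t ht)
    have hQε : ∀ t ∈ F, ε ≤ Q t := fun t ht => (min_le_right _ _).trans (htqmin t ht)
    have hεm : ε ≤ m := (hPε t0 ht0).trans (hPm t0 ht0)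
    have hcε : ∀ s ∈ E + F, ε ≤ c s := by
      intro s hs
      obtain ⟨x, hx, y, hy, rfl⟩ := Finset.mem_add.1 hs
      have h1 : ε ^ 2 ≤ c (x + y) ^ 2 := by
        calc ε ^ 2 = ε * ε := by ring
          _ ≤ P x * Q y := mul_le_mul (hPε x hx) (hQε y hy) hε0 (hP x hx)
          _ ≤ _ := h x hx y hy
      exact (abs_le_of_sq_le_sq' h1 (hc _)).2
    have hcard : (E.card : ℝ) + F.card - 1 ≤ (E + F).card := by
      have h1 := cauchy_davenport_add_of_linearOrder_isCancelAdd hEne hFne
      have h2 : 0 < E.card := Finset.card_pos.2 hEne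
      have h3 : E.card + F.card ≤ (E + F).card + 1 := by omega
      have h4 : (E.card : ℝ) + F.card ≤ (E + F).card + 1 := by exact_mod_cast h3
      linarith
    rcases hεm.eq_or_lt with hm | hm
    · -- all values are equal to `m`
      have h1 : ∑ t ∈ E, P t ≤ E.card * m := by
        have := Finset.sum_le_card_nsmul E P m hPm
        simpa [nsmul_eq_mul] using this
      have h2 : ∑ t ∈ F, Q t ≤ F.card * m := by
        have := Finset.sum_le_card_nsmul F Q m hQm
        simpa [nsmul_eq_mul] using this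
      have h3 : ((E + F).card : ℝ) * m ≤ ∑ s ∈ E + F, c s := by
        have := Finset.card_nsmul_le_sum (E + F) c m (fun s hs => hm ▸ hcε s hs)
        simpa [nsmul_eq_mul] using this
      have hm0 : 0 ≤ m := hm ▸ hε0
      have h4 : ((E.card : ℝ) + F.card - 1) * m ≤ (E + F).card * m :=
        mul_le_mul_of_nonneg_right hcard hm0
      nlinarith
    · -- peel off a layer
      set E' := E.filter (fun t => ε < P t) with hE'
      set F' := F.filter (fun t => ε < Q t) with hF'
      have ht0' : t0 ∈ E' := Finset.mem_filter.2 ⟨ht0, by rw [ht0m]; exact hm⟩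
      have hu0' : u0 ∈ F' := Finset.mem_filter.2 ⟨hu0, by rw [hu0m]; exact hm⟩
      have hE'E : E' ⊆ E := Finset.filter_subset _ _
      have hF'F : F' ⊆ F := Finset.filter_subset _ _
      have hlt : E'.card + F'.card ≤ n := by
        have hor : ε = P tp ∨ ε = Q tq := by
          rcases le_total (P tp) (Q tq) with hh | hh
          · left; exact min_eq_left hh
          · right; exact min_eq_right hh
        rcases hor with hh | hh
        · have h1 : E'.card < E.card := by
            refine Finset.card_lt_card (Finset.ssubset_iff_subset_ne.2 ⟨hE'E, ?_⟩)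
            intro heq
            have : tp ∈ E' := heq ▸ htp
            have := (Finset.mem_filter.1 this).2
            linarith
          have h2 : F'.card ≤ F.card := Finset.card_le_card hF'F
          omega
        · have h1 : F'.card < F.card := by
            refine Finset.card_lt_card (Finset.ssubset_iff_subset_ne.2 ⟨hF'F, ?_⟩)
            intro heq
            have : tq ∈ F' := heq ▸ htq
            have := (Finset.mem_filter.1 this).2
            linarith
          have h2 : E'.card ≤ E.card := Finset.card_le_card hE'E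
          omega
      have key := ih E' F' (fun t => P t - ε) (fun t => Q t - ε) (fun s => max (c s - ε) 0) (m - ε)
        hlt (fun t ht => by have := (Finset.mem_filter.1 ht).2; linarith)
        (fun t ht => by have := (Finset.mem_filter.1 ht).2; linarith)
        (fun t ht => by have := hPm t (hE'E ht); linarith)
        (fun t ht => by have := hQm t (hF'F ht); linarith)
        ⟨t0, ht0', by rw [ht0m]⟩ ⟨u0, hu0', by rw [hu0m]⟩ (fun s => le_max_right _ _) (by
          intro s hs t ht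
          have hs1 := hE'E hs
          have ht1 := hF'F ht
          have hcs : ε ≤ c (s + t) := hcε _ (Finset.add_mem_add hs1 ht1)
          have h1 := h s hs1 t ht1
          have hps := hPε s hs1
          have hqt := hQε t ht1
          have h2 : max (c (s + t) - ε) 0 = c (s + t) - ε := max_eq_left (by linarith)
          simp only [h2]
          -- `(c - ε)² ≥ (P - ε)(Q - ε)`
          have h3 : c (s + t) ≤ (P s + Q t) / 2 ∨ (P s + Q t) / 2 ≤ c (s + t) := le_total _ _
          rcases h3 with h3 | h3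
          · nlinarith
          · have h4 : (P s - ε) * (Q t - ε) ≤ ((P s + Q t) / 2 - ε) ^ 2 := by nlinarith [sq_nonneg (P s - Q t)]
            have h5 : ((P s + Q t) / 2 - ε) ^ 2 ≤ (c (s + t) - ε) ^ 2 :=
              pow_le_pow_left₀ (by linarith) (by linarith) 2
            linarith)
      have h1 : ∑ t ∈ E', (P t - ε) = ∑ t ∈ E, (P t - ε) := by
        refine Finset.sum_subset hE'E (fun t ht hn => ?_)
        have : ¬ ε < P t := fun hh => hn (Finset.mem_filter.2 ⟨ht, hh⟩)
        have := hPε t ht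
        linarith
      have h2 : ∑ t ∈ F', (Q t - ε) = ∑ t ∈ F, (Q t - ε) := by
        refine Finset.sum_subset hF'F (fun t ht hn => ?_)
        have : ¬ ε < Q t := fun hh => hn (Finset.mem_filter.2 ⟨ht, hh⟩)
        have := hQε t ht
        linarith
      have h3 : ∑ s ∈ E' + F', max (c s - ε) 0 ≤ ∑ s ∈ E + F, (c s - ε) := by
        calc ∑ s ∈ E' + F', max (c s - ε) 0 ≤ ∑ s ∈ E + F, max (c s - ε) 0 :=
              Finset.sum_le_sum_of_subset_of_nonneg (Finset.add_subset_add hE'E hF'F)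
                (fun _ _ _ => le_max_right _ _)
          _ = _ := Finset.sum_congr rfl (fun s hs => max_eq_left (by have := hcε s hs; linarith))
      rw [h1, h2, Finset.sum_sub_distrib, Finset.sum_sub_distrib] at key
      rw [Finset.sum_sub_distrib] at h3
      simp only [Finset.sum_const, nsmul_eq_mul] at key h3
      have h4 : ((E.card : ℝ) + F.card - 1) * ε ≤ (E + F).card * ε :=
        mul_le_mul_of_nonneg_right hcard hε0
      nlinarith

/-- The discrete Prékopa–Leindler inequality, with the maxima `p`, `q` of the two functions. -/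
lemma pl (E F : Finset ℤ) (P Q c : ℤ → ℝ) (t0 u0 : ℤ) (ht0 : t0 ∈ E) (hu0 : u0 ∈ F)
    (hP : ∀ t ∈ E, 0 ≤ P t) (hQ : ∀ t ∈ F, 0 ≤ Q t) (hPm : ∀ t ∈ E, P t ≤ P t0)
    (hQm : ∀ t ∈ F, Q t ≤ Q u0) (hc : ∀ s, 0 ≤ c s)
    (h : ∀ s ∈ E, ∀ t ∈ F, P s * Q t ≤ c (s + t) ^ 2) :
    (2 * ∑ t ∈ E, P t - P t0) * (2 * ∑ t ∈ F, Q t - Q u0) ≤ (∑ s ∈ E + F, c s) ^ 2 := by
  rcases (hP t0 ht0).eq_or_lt with hp | hp
  · have : ∑ t ∈ E, P t = 0 := by
      refine Finset.sum_eq_zero (fun t ht => le_antisymm ?_ (hP t ht))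
      rw [hp]; exact hPm t ht
    rw [this, ← hp]
    simp only [mul_zero, sub_zero, zero_mul]
    positivity
  rcases (hQ u0 hu0).eq_or_lt with hq | hq
  · have : ∑ t ∈ F, Q t = 0 := by
      refine Finset.sum_eq_zero (fun t ht => le_antisymm ?_ (hQ t ht))
      rw [hq]; exact hQm t ht
    rw [this, ← hq]
    simp only [mul_zero, sub_zero]
    positivity
  set p := P t0
  set q := Q u0
  set r := Real.sqrt (p * q) with hr
  have hpq : 0 < p * q := mul_pos hp hq
  have hr0 : 0 < r := Real.sqrt_pos.2 hpq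
  have hr2 : r ^ 2 = p * q := Real.sq_sqrt hpq.le
  have key := pl_aux (E.card + F.card) E F (fun t => P t / p) (fun t => Q t / q)
    (fun s => c s / r) 1 le_rfl (fun t ht => div_nonneg (hP t ht) hp.le)
    (fun t ht => div_nonneg (hQ t ht) hq.le) (fun t ht => (div_le_one hp).2 (hPm t ht))
    (fun t ht => (div_le_one hq).2 (hQm t ht)) ⟨t0, ht0, div_self hp.ne'⟩ ⟨u0, hu0, div_self hq.ne'⟩
    (fun s => div_nonneg (hc s) hr0.le) (by
      intro s hs t ht
      have h1 := h s hs t ht
      rw [div_pow, hr2, div_mul_div_comm]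
      exact div_le_div_of_nonneg_right h1 hpq.le)
  rw [← Finset.sum_div, ← Finset.sum_div, ← Finset.sum_div] at key
  set SP := ∑ t ∈ E, P t
  set SQ := ∑ t ∈ F, Q t
  set SC := ∑ s ∈ E + F, c s
  have hSP : p ≤ SP := Finset.single_le_sum (f := P) hP ht0
  have hSQ : q ≤ SQ := Finset.single_le_sum (f := Q) hQ hu0
  have hx : 1 ≤ SP / p := (one_le_div hp).2 hSP
  have hy : 1 ≤ SQ / q := (one_le_div hq).2 hSQ
  have h2 : (2 * (SP / p) - 1) * (2 * (SQ / q) - 1) ≤ (SC / r) ^ 2 := by
    have h3 : (2 * (SP / p) - 1) * (2 * (SQ / q) - 1) ≤ (SP / p + SQ / q - 1) ^ 2 := by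
      nlinarith [sq_nonneg (SP / p - SQ / q)]
    have h4 : (SP / p + SQ / q - 1) ^ 2 ≤ (SC / r) ^ 2 :=
      pow_le_pow_left₀ (by linarith) key 2
    linarith
  have h5 : (2 * SP - p) * (2 * SQ - q) = (p * q) * ((2 * (SP / p) - 1) * (2 * (SQ / q) - 1)) := by
    field_simp
  have h6 : SC ^ 2 = (p * q) * (SC / r) ^ 2 := by
    rw [div_pow, hr2]; field_simp
  rw [h5, h6]
  exact mul_le_mul_of_nonneg_left h2 hpq.le

/-- slicing form -/
lemma pl_slices {d : ℕ} (A B : Finset (Fin (d + 1) → ℤ)) (P Q : ℤ → ℝ) (t0 u0 : ℤ)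
    (ht0 : t0 ∈ heights A) (hu0 : u0 ∈ heights B)
    (hP : ∀ t ∈ heights A, 0 ≤ P t) (hQ : ∀ t ∈ heights B, 0 ≤ Q t)
    (hPm : ∀ t ∈ heights A, P t ≤ P t0) (hQm : ∀ t ∈ heights B, Q t ≤ Q u0)
    (h : ∀ s ∈ heights A, ∀ t ∈ heights B,
      P s * Q t ≤ ((slice A s + slice B t).card : ℝ) ^ 2) :
    (2 * ∑ t ∈ heights A, P t - P t0) * (2 * ∑ t ∈ heights B, Q t - Q u0) ≤
      ((A + B).card : ℝ) ^ 2 := by
  have h1 := pl (heights A) (heights B) P Q (fun s => ((slice (A + B) s).card : ℝ)) t0 u0 ht0 hu0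
    hP hQ hPm hQm (fun s => by positivity) (by
      intro s hs t ht
      refine (h s hs t ht).trans ?_
      exact pow_le_pow_left₀ (by positivity) (card_slice_add_le A B s t) 2)
  refine h1.trans ?_
  exact pow_le_pow_left₀ (Finset.sum_nonneg (fun _ _ => by positivity))
    (sum_card_slices_le (A + B) _) 2

end Helper12DS
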