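import Mathlib

set_option autoImplicit false

namespace Helper12DS

/-- A set of integer vectors is solid if with `x` it contains every vector lying coordinatewise
between `0` and `x`. -/
def Solid {d : ℕ} (S : Set (Fin d → ℤ)) : Prop := ∀ x ∈ S, Set.uIcc 0 x ⊆ S

/-- The progression `{a + n₁ v₁ + ⋯ + n_r v_r : 0 ≤ n_i < N_i}`. -/
def prog {G : Type*} [AddCommGroup G] {r : ℕ} (a : G) (v : Fin r → G) (N : Fin r → ℕ) : Set G :=
  {x | ∃ n : Fin r → ℕ, (∀ i, n i < N i) ∧ x = a + ∑ i, n i • v i}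

end Helper12DS
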