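import Pool.Agent.Helper12DS.Tensor

set_option autoImplicit false

open Finset
open scoped Pointwise

namespace Helper12DS

/-- the box between `0` and `x` -/
noncomputable def bx {d : ℕ} (x : Fin d → ℤ) : Finset (Fin d → ℤ) := Finset.uIcc 0 x

lemma mem_bx {d : ℕ} {x y : Fin d → ℤ} :
    y ∈ bx x ↔ ∀ i, min 0 (x i) ≤ y i ∧ y i ≤ max 0 (x i) := by
  unfold bx
  rw [Finset.mem_uIcc]
  constructor
  · rintro ⟨h1, h2⟩ i
    exact ⟨h1 i, h2 i⟩
  · intro h
    exact ⟨fun i => (h i).1, fun i => (h i).2⟩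

lemma card_bx {d : ℕ} (x : Fin d → ℤ) : ((bx x).card : ℝ) = ∏ i, (((|x i| : ℤ) : ℝ) + 1) := by
  unfold bx
  rw [Pi.card_uIcc]
  push_cast
  refine Finset.prod_congr rfl (fun i _ => ?_)
  rw [Int.card_uIcc]
  push_cast
  simp

lemma prod_w {d : ℕ} (x : Fin d → ℤ) : ∏ i, w (x i) = 8 ^ nz x * (bx x).card := by
  rw [card_bx, nz, ← Finset.prod_pow_eq_pow_sum, ← Finset.prod_mul_distrib]
  refine Finset.prod_congr rfl (fun i _ => ?_)
  unfold w
  split_ifs with h
  · simp [h]
  · simp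

/-- solid sets -/
def Sol {d : ℕ} (S : Finset (Fin d → ℤ)) : Prop := ∀ x ∈ S, bx x ⊆ S

lemma Sol.zc {d : ℕ} {S : Finset (Fin d → ℤ)} (h : Sol S) : ZC S := by
  intro x hx i
  refine h x hx (mem_bx.2 (fun j => ?_))
  by_cases hj : j = i
  · subst hj
    simp
  · rw [Function.update_of_ne hj]
    exact ⟨min_le_right _ _, le_max_right _ _⟩

lemma sub_mem_bx {d : ℕ} {x u : Fin d → ℤ} (h : u ∈ bx x) : x - u ∈ bx x := by
  rw [mem_bx] at h ⊢
  intro i
  have := h i
  simp only [Pi.sub_apply]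
  rcases le_total 0 (x i) with h0 | h0
  · rw [min_eq_left h0, max_eq_right h0] at this ⊢
    omega
  · rw [min_eq_right h0, max_eq_left h0] at this ⊢
    omega

/-- Step 1: most points have few nonzero coordinates. -/
lemma step1 {d : ℕ} (A S : Finset (Fin d → ℤ)) (K L : ℝ) (hAS : A ⊆ S) (hS : Sol S)
    (hAne : A.Nonempty)
    (hK : ((A + A).card : ℝ) ≤ K * A.card) (hL : (S.card : ℝ) ≤ L * A.card) :
    (A.card : ℝ) / 2 ≤ (A.filter (fun x => ((3 : ℝ) / 2) ^ nz x ≤ 4 * K * L)).card := by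
  classical
  have hn : (0 : ℝ) < A.card := by exact_mod_cast Finset.card_pos.2 hAne
  have hL0 : 0 ≤ L := by
    by_contra hneg
    push Not at hneg
    have : (0 : ℝ) ≤ S.card := by positivity
    nlinarith
  have hK0 : 0 ≤ K := by
    by_contra hneg
    push Not at hneg
    have : (0 : ℝ) ≤ (A + A).card := by positivity
    nlinarith
  set τ := Real.sqrt (4 * K * L) with hτ
  have hτ0 : 0 ≤ τ := Real.sqrt_nonneg _
  have hτ2 : τ ^ 2 = 4 * K * L := Real.sq_sqrt (by positivity)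
  set B := A.filter (fun x => ¬ ((3 : ℝ) / 2) ^ nz x ≤ 4 * K * L) with hB
  have hcard : (A.filter (fun x => ((3 : ℝ) / 2) ^ nz x ≤ 4 * K * L)).card + B.card = A.card :=
    Finset.card_filter_add_card_filter_not _
  have hcard' : ((A.filter (fun x => ((3 : ℝ) / 2) ^ nz x ≤ 4 * K * L)).card : ℝ) + B.card =
      A.card := by exact_mod_cast hcard
  have h1 : (B.card : ℝ) * τ ≤ Phi A := by
    calc (B.card : ℝ) * τ = ∑ x ∈ B, τ := by simp
      _ ≤ ∑ x ∈ B, lam ^ nz x := by
          refine Finset.sum_le_sum (fun x hx => ?_)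
          have h2 := (Finset.mem_filter.1 hx).2
          push Not at h2
          have h3 : τ ^ 2 ≤ (lam ^ nz x) ^ 2 := by
            rw [hτ2, ← pow_mul, mul_comm (nz x) 2, pow_mul, lam_sq]
            exact h2.le
          exact (abs_le_of_sq_le_sq' h3 (pow_nonneg lam_pos.le _)).2
      _ ≤ Phi A := Finset.sum_le_sum_of_subset_of_nonneg (Finset.filter_subset _ _)
          (fun _ _ _ => pow_nonneg lam_pos.le _)
  have h2 := Phi_mul_le d A A S S hAS hAS hS.zc hS.zc
  have h3 : Phi A ^ 2 ≤ (A + A).card * S.card := by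
    have e1 : (Phi A ^ 2) ^ 2 ≤ ((A + A).card * S.card : ℝ) ^ 2 := by nlinarith
    exact (abs_le_of_sq_le_sq' e1 (by positivity)).2
  have h4 : ((A + A).card : ℝ) * S.card ≤ K * L * (A.card : ℝ) ^ 2 := by
    calc ((A + A).card : ℝ) * S.card ≤ (K * A.card) * (L * A.card) :=
          mul_le_mul hK hL (by positivity) (by positivity)
      _ = _ := by ring
  have h5 : ((B.card : ℝ) * τ) ^ 2 ≤ Phi A ^ 2 := pow_le_pow_left₀ (by positivity) h1 2
  rw [mul_pow, hτ2] at h5
  have hKL : 0 < K * L := by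
    rcases (mul_nonneg hK0 hL0).eq_or_lt with h | h
    · exfalso
      rw [← h, zero_mul] at h4
      have h6 : (0 : ℝ) < (A + A).card := by
        exact_mod_cast Finset.card_pos.2 (hAne.add hAne)
      have h7 : (0 : ℝ) < S.card := by exact_mod_cast Finset.card_pos.2 (hAne.mono hAS)
      nlinarith
    · exact h
  have h6 : (2 * (B.card : ℝ)) ^ 2 ≤ (A.card : ℝ) ^ 2 := by
    have h7 : (K * L) * (2 * (B.card : ℝ)) ^ 2 ≤ (K * L) * (A.card : ℝ) ^ 2 := by nlinarith
    exact le_of_mul_le_mul_left h7 hKL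
  have h7 : 2 * (B.card : ℝ) ≤ A.card := (abs_le_of_sq_le_sq' h6 (by positivity)).2
  linarith

/-- Step 2: among these, many have a large box. -/
lemma step2 {d : ℕ} (A A1 : Finset (Fin d → ℤ)) (K : ℝ) (hA1 : A1 ⊆ A) (hAne : A.Nonempty)
    (hK : ((A + A).card : ℝ) ≤ K * A.card) (hhalf : (A.card : ℝ) / 2 ≤ A1.card) :
    (A.card : ℝ) / 4 ≤ (A1.filter (fun x => (A.card : ℝ) / (16 * K) ≤ ∏ i, w (x i))).card := by
  classical
  have hn : (0 : ℝ) < A.card := by exact_mod_cast Finset.card_pos.2 hAne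
  have hKpos : 0 < K := by
    by_contra hneg
    push Not at hneg
    have : (0 : ℝ) < (A + A).card := by exact_mod_cast Finset.card_pos.2 (hAne.add hAne)
    nlinarith
  set B := A1.filter (fun x => ¬ (A.card : ℝ) / (16 * K) ≤ ∏ i, w (x i)) with hB
  have hcard : (A1.filter (fun x => (A.card : ℝ) / (16 * K) ≤ ∏ i, w (x i))).card + B.card =
      A1.card := Finset.card_filter_add_card_filter_not _
  have hcard' : ((A1.filter (fun x => (A.card : ℝ) / (16 * K) ≤ ∏ i, w (x i))).card : ℝ) +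
      B.card = A1.card := by exact_mod_cast hcard
  have hBA : B ⊆ A := (Finset.filter_subset _ _).trans hA1
  rcases B.eq_empty_or_nonempty with hBe | hBne
  · rw [hBe] at hcard'
    simp only [Finset.card_empty, Nat.cast_zero, add_zero] at hcard'
    linarith
  have hM : ∀ x ∈ B, ∏ i, w (x i) ≤ (A.card : ℝ) / (16 * K) := by
    intro x hx
    have := (Finset.mem_filter.1 hx).2
    push Not at this
    exact this.le
  have h1 := card_mul_le d B B _ _ hM hM hBne hBne
  have h2 : ((B + B).card : ℝ) ≤ K * A.card := by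
    refine le_trans ?_ hK
    exact_mod_cast Finset.card_le_card (Finset.add_subset_add hBA hBA)
  have h3 : (B.card : ℝ) * B.card ≤ (A.card / 4) * (A.card / 4) := by
    have e1 : ((B.card : ℝ) * B.card) ^ 2 ≤ ((A.card / 4) * (A.card / 4) : ℝ) ^ 2 := by
      refine h1.trans ?_
      calc ((B + B).card : ℝ) ^ 2 * ((A.card : ℝ) / (16 * K) * ((A.card : ℝ) / (16 * K)))
          ≤ (K * A.card) ^ 2 * ((A.card : ℝ) / (16 * K) * ((A.card : ℝ) / (16 * K))) := by
            refine mul_le_mul_of_nonneg_right ?_ (by positivity)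
            exact pow_le_pow_left₀ (by positivity) h2 2
        _ = _ := by field_simp; norm_num
    exact (abs_le_of_sq_le_sq' e1 (by positivity)).2
  have h4 : (B.card : ℝ) ≤ A.card / 4 := by
    have : (B.card : ℝ) ^ 2 ≤ (A.card / 4 : ℝ) ^ 2 := by nlinarith
    exact (abs_le_of_sq_le_sq' this (by positivity)).2
  linarith

/-- Step 3 (Cauchy-Schwarz): some box meets many of the others in a large set. -/
lemma step3 {d : ℕ} (X S : Finset (Fin d → ℤ)) (n q L : ℝ) (hXne : X.Nonempty)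
    (hn : 0 < n) (hq : 0 < q) (hL : 0 < L)
    (hXS : ∀ x ∈ X, bx x ⊆ S) (hS : (S.card : ℝ) ≤ L * n) (hbig : ∀ x ∈ X, n / q ≤ (bx x).card) :
    ∃ z ∈ X, (X.card : ℝ) / (2 * L ^ 2 * q ^ 2) ≤
      (X.filter (fun x => n / (2 * L * q ^ 2) ≤ ((bx x ∩ bx z).card : ℝ))).card := by
  classical
  have hX : (0 : ℝ) < X.card := by exact_mod_cast Finset.card_pos.2 hXne
  -- the total
  have hsum1 : (X.card : ℝ) * (n / q) ≤ ∑ y ∈ S, ((X.filter (fun x => y ∈ bx x)).card : ℝ) := by
    calc (X.card : ℝ) * (n / q) = ∑ x ∈ X, n / q := by simp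
      _ ≤ ∑ x ∈ X, ((bx x).card : ℝ) := Finset.sum_le_sum hbig
      _ = ∑ x ∈ X, ∑ y ∈ S, (if y ∈ bx x then (1 : ℝ) else 0) := by
          refine Finset.sum_congr rfl (fun x hx => ?_)
          rw [Finset.sum_boole, Finset.filter_mem_eq_inter, Finset.inter_eq_right.2 (hXS x hx)]
      _ = ∑ y ∈ S, ∑ x ∈ X, (if y ∈ bx x then (1 : ℝ) else 0) := Finset.sum_comm
      _ = _ := by
          refine Finset.sum_congr rfl (fun y _ => ?_)
          rw [Finset.sum_boole]
  have hcs : (∑ y ∈ S, ((X.filter (fun x => y ∈ bx x)).card : ℝ)) ^ 2 ≤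
      S.card * ∑ y ∈ S, ((X.filter (fun x => y ∈ bx x)).card : ℝ) ^ 2 :=
    sq_sum_le_card_mul_sum_sq
  have hsq : ∑ y ∈ S, ((X.filter (fun x => y ∈ bx x)).card : ℝ) ^ 2 =
      ∑ z ∈ X, ∑ x ∈ X, ((bx x ∩ bx z).card : ℝ) := by
    have e1 : ∀ y ∈ S, ((X.filter (fun x => y ∈ bx x)).card : ℝ) ^ 2 =
        ∑ z ∈ X, ∑ x ∈ X, (if y ∈ bx x ∩ bx z then (1 : ℝ) else 0) := by
      intro y _
      have : ((X.filter (fun x => y ∈ bx x)).card : ℝ) =
          ∑ x ∈ X, (if y ∈ bx x then (1 : ℝ) else 0) := by rw [Finset.sum_boole]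
      rw [this, sq, Finset.sum_mul_sum]
      refine Finset.sum_congr rfl (fun z _ => Finset.sum_congr rfl (fun x _ => ?_))
      by_cases h1 : y ∈ bx z <;> by_cases h2 : y ∈ bx x <;> simp [h1, h2]
    rw [Finset.sum_congr rfl e1, Finset.sum_comm]
    refine Finset.sum_congr rfl (fun z hz => ?_)
    rw [Finset.sum_comm]
    refine Finset.sum_congr rfl (fun x hx => ?_)
    rw [Finset.sum_boole, Finset.filter_mem_eq_inter,
      Finset.inter_eq_right.2 (Finset.inter_subset_left.trans (hXS x hx))]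
  -- choose `z`
  obtain ⟨z, hz, hzmax⟩ := Finset.exists_max_image X
    (fun z => ∑ x ∈ X, ((bx x ∩ bx z).card : ℝ)) hXne
  set R := ∑ x ∈ X, ((bx x ∩ bx z).card : ℝ) with hR
  have hRle : ∑ z ∈ X, ∑ x ∈ X, ((bx x ∩ bx z).card : ℝ) ≤ X.card * R := by
    have := Finset.sum_le_card_nsmul X (fun z => ∑ x ∈ X, ((bx x ∩ bx z).card : ℝ)) R hzmax
    simpa [nsmul_eq_mul] using this
  have hSpos : 0 < L * n := by positivity
  have h1 : ((X.card : ℝ) * (n / q)) ^ 2 ≤ (L * n) * (X.card * R) := by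
    calc ((X.card : ℝ) * (n / q)) ^ 2
        ≤ (∑ y ∈ S, ((X.filter (fun x => y ∈ bx x)).card : ℝ)) ^ 2 :=
          pow_le_pow_left₀ (by positivity) hsum1 2
      _ ≤ _ := hcs
      _ = S.card * ∑ z ∈ X, ∑ x ∈ X, ((bx x ∩ bx z).card : ℝ) := by rw [hsq]
      _ ≤ (L * n) * (X.card * R) := by
          refine mul_le_mul hS hRle (Finset.sum_nonneg (fun _ _ => Finset.sum_nonneg
            (fun _ _ => by positivity))) hSpos.le
  have h2 : (X.card : ℝ) * n / (L * q ^ 2) ≤ R := by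
    rw [div_le_iff₀ (by positivity)]
    have e1 : ((X.card : ℝ) * (n / q)) ^ 2 = X.card * n * ((X.card * n) / q ^ 2) := by
      field_simp
    have e2 : (L * n) * (X.card * R) = X.card * n * (L * R) := by ring
    rw [e1, e2] at h1
    have h3 := le_of_mul_le_mul_left h1 (by positivity)
    rw [div_le_iff₀ (by positivity)] at h3
    linarith
  refine ⟨z, hz, ?_⟩
  set θ := n / (2 * L * q ^ 2) with hθ
  have hθ0 : 0 < θ := by positivity
  set Y := X.filter (fun x => θ ≤ ((bx x ∩ bx z).card : ℝ)) with hY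
  have h3 : R ≤ Y.card * (L * n) + X.card * θ := by
    calc R ≤ ∑ x ∈ X, ((if θ ≤ ((bx x ∩ bx z).card : ℝ) then L * n else 0) + θ) := by
          refine Finset.sum_le_sum (fun x hx => ?_)
          split_ifs with h
          · have : ((bx x ∩ bx z).card : ℝ) ≤ S.card := by
              exact_mod_cast Finset.card_le_card (Finset.inter_subset_left.trans (hXS x hx))
            linarith
          · push Not at h
            linarith
      _ = _ := by
          rw [Finset.sum_add_distrib, ← Finset.sum_filter]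
          simp [hY]
  have h4 : (X.card : ℝ) * n / (L * q ^ 2) = 2 * (X.card * θ) := by
    rw [hθ]; field_simp
  have h5 : (X.card : ℝ) * θ ≤ Y.card * (L * n) := by linarith
  rw [div_le_iff₀ (by positivity)]
  have h6 : (X.card : ℝ) * θ = n * (X.card / (2 * L * q ^ 2)) := by
    rw [hθ]; field_simp
  rw [h6, show (Y.card : ℝ) * (L * n) = n * (Y.card * L) by ring] at h5
  have h7 := le_of_mul_le_mul_left h5 hn
  rw [div_le_iff₀ (by positivity)] at h7
  linarith

/-- the symmetric box -/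
noncomputable def sbx {d : ℕ} (t z : Fin d → ℤ) : Finset (Fin d → ℤ) := Finset.Icc (t - |z|) (t + |z|)

lemma mem_sbx {d : ℕ} {t z y : Fin d → ℤ} :
    y ∈ sbx t z ↔ ∀ i, t i - |z i| ≤ y i ∧ y i ≤ t i + |z i| := by
  unfold sbx
  rw [Finset.mem_Icc]
  constructor
  · rintro ⟨h1, h2⟩ i
    exact ⟨h1 i, h2 i⟩
  · intro h
    exact ⟨fun i => (h i).1, fun i => (h i).2⟩

/-- a family of indices whose sets are pairwise disjoint -/
def DisFam {d : ℕ} (U : (Fin d → ℤ) → Finset (Fin d → ℤ)) (T : Finset (Fin d → ℤ)) : Prop :=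
  ∀ x ∈ T, ∀ y ∈ T, x ≠ y → Disjoint (U x) (U y)

/-- Step 4 (covering). -/
lemma step4 {d : ℕ} (Y S : Finset (Fin d → ℤ)) (z : Fin d → ℤ) (θ : ℝ) (hθ : 0 < θ)
    (hYS : ∀ x ∈ Y, bx x ⊆ S) (hbig : ∀ x ∈ Y, θ ≤ ((bx x ∩ bx z).card : ℝ)) (hYne : Y.Nonempty) :
    ∃ t ∈ Y, (Y.card : ℝ) * θ ≤ (Y ∩ sbx t z).card * S.card := by
  classical
  -- a maximal family with disjoint sets `x - (bx x ∩ bx z)`
  set U : (Fin d → ℤ) → Finset (Fin d → ℤ) := fun x => (bx x ∩ bx z).image (fun u => x - u) with hU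
  have hUS : ∀ x ∈ Y, U x ⊆ S := by
    intro x hx y hy
    obtain ⟨u, hu, rfl⟩ := Finset.mem_image.1 hy
    exact hYS x hx (sub_mem_bx (Finset.mem_inter.1 hu).1)
  have hUcard : ∀ x, (U x).card = (bx x ∩ bx z).card := by
    intro x
    exact Finset.card_image_of_injective _ (fun a b h => by simpa using h)
  set Fam := Y.powerset.filter (fun T => DisFam U T) with hFam
  have hFne : Fam.Nonempty := by
    refine ⟨∅, ?_⟩
    rw [hFam, Finset.mem_filter]
    refine ⟨Finset.empty_mem_powerset _, fun x hx => ?_⟩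
    simp at hx
  obtain ⟨T, hT, hTmax⟩ := Finset.exists_max_image Fam Finset.card hFne
  rw [hFam, Finset.mem_filter, Finset.mem_powerset] at hT
  obtain ⟨hTY, hTd⟩ := hT
  have hcover : ∀ y ∈ Y, ∃ t ∈ T, y ∈ sbx t z := by
    intro y hy
    have hmeet : ∃ t ∈ T, ¬ Disjoint (U y) (U t) := by
      by_contra hcon
      push Not at hcon
      have hUy : (U y).Nonempty := by
        rw [← Finset.card_pos, hUcard]
        have := hbig y hy
        have h2 : (0 : ℝ) < (bx y ∩ bx z).card := lt_of_lt_of_le hθ this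
        exact_mod_cast h2
      have hyT : y ∉ T := by
        intro hyT
        have := hcon y hyT
        rw [disjoint_self] at this
        exact hUy.ne_empty this
      have hins : insert y T ∈ Fam := by
        rw [hFam, Finset.mem_filter, Finset.mem_powerset]
        refine ⟨Finset.insert_subset hy hTY, ?_⟩
        intro a ha b hb hab
        rcases Finset.mem_insert.1 ha with ha | ha
        · rcases Finset.mem_insert.1 hb with hb | hb
          · exact absurd (ha.trans hb.symm) hab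
          · rw [ha]
            exact hcon b hb
        · rcases Finset.mem_insert.1 hb with hb | hb
          · rw [hb]
            exact (hcon a ha).symm
          · exact hTd a ha b hb hab
      have := hTmax _ hins
      rw [Finset.card_insert_of_notMem hyT] at this
      omega
    obtain ⟨t, ht, hnd⟩ := hmeet
    rw [Finset.not_disjoint_iff] at hnd
    obtain ⟨a, ha1, ha2⟩ := hnd
    obtain ⟨u, hu, hu2⟩ := Finset.mem_image.1 ha1
    obtain ⟨u', hu', hu2'⟩ := Finset.mem_image.1 ha2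
    refine ⟨t, ht, mem_sbx.2 (fun i => ?_)⟩
    have h1 := mem_bx.1 (Finset.mem_inter.1 hu).2 i
    have h2 := mem_bx.1 (Finset.mem_inter.1 hu').2 i
    have h3 : y i - u i = t i - u' i := by
      have := congrFun (hu2.trans hu2'.symm) i
      simpa using this
    rcases le_total 0 (z i) with h0 | h0
    · rw [min_eq_left h0, max_eq_right h0] at h1 h2
      rw [abs_of_nonneg h0]
      omega
    · rw [min_eq_right h0, max_eq_left h0] at h1 h2
      rw [abs_of_nonpos h0]
      omega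
  have hTne : T.Nonempty := by
    obtain ⟨y, hy⟩ := hYne
    obtain ⟨t, ht, _⟩ := hcover y hy
    exact ⟨t, ht⟩
  -- `|T| θ ≤ |S|`
  have hTθ : (T.card : ℝ) * θ ≤ S.card := by
    have h1 : (T.biUnion U).card = ∑ x ∈ T, (U x).card :=
      Finset.card_biUnion (fun x hx y hy hxy => hTd x hx y hy hxy)
    have h2 : (T.biUnion U).card ≤ S.card :=
      Finset.card_le_card (Finset.biUnion_subset.2 (fun x hx => hUS x (hTY hx)))
    calc (T.card : ℝ) * θ = ∑ x ∈ T, θ := by simp
      _ ≤ ∑ x ∈ T, ((U x).card : ℝ) := by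
          refine Finset.sum_le_sum (fun x hx => ?_)
          rw [hUcard]
          exact hbig x (hTY hx)
      _ ≤ S.card := by
          rw [h1] at h2
          exact_mod_cast h2
  -- pigeonhole
  obtain ⟨t, ht, htmax⟩ := Finset.exists_max_image T (fun t => (Y ∩ sbx t z).card) hTne
  refine ⟨t, hTY ht, ?_⟩
  have h1 : Y.card ≤ ∑ s ∈ T, (Y ∩ sbx s z).card := by
    refine le_trans (Finset.card_le_card ?_) (Finset.card_biUnion_le)
    intro y hy
    obtain ⟨s, hs, hys⟩ := hcover y hy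
    exact Finset.mem_biUnion.2 ⟨s, hs, Finset.mem_inter.2 ⟨hy, hys⟩⟩
  have h2 : ∑ s ∈ T, (Y ∩ sbx s z).card ≤ T.card * (Y ∩ sbx t z).card := by
    have := Finset.sum_le_card_nsmul T (fun s => (Y ∩ sbx s z).card) _ htmax
    simpa using this
  have h3 : (Y.card : ℝ) ≤ T.card * (Y ∩ sbx t z).card := by exact_mod_cast h1.trans h2
  calc (Y.card : ℝ) * θ ≤ (T.card * (Y ∩ sbx t z).card) * θ :=
        mul_le_mul_of_nonneg_right h3 hθ.le
    _ = (Y ∩ sbx t z).card * (T.card * θ) := by ring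
    _ ≤ _ := mul_le_mul_of_nonneg_left hTθ (by positivity)

lemma alg (n L q : ℝ) (hL : 0 < L) (hq : 0 < q) :
    n / 4 / (2 * L ^ 2 * q ^ 2) * (n / (2 * L * q ^ 2)) = (n * n) / (16 * L ^ 3 * q ^ 4) := by
  field_simp
  ring

/-- The core statement for subsets of `ℤ^d`. -/
theorem core {d : ℕ} (A S : Finset (Fin d → ℤ)) (K L : ℝ) (hAS : A ⊆ S) (hS : Sol S)
    (hAne : A.Nonempty)
    (hK : ((A + A).card : ℝ) ≤ K * A.card) (hL : (S.card : ℝ) ≤ L * A.card) :
    ∃ z ∈ A, ∃ t ∈ A, ((3 : ℝ) / 2) ^ nz z ≤ 4 * K * L ∧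
      ((bx z).card : ℝ) ≤ L * A.card ∧
      (A.card : ℝ) ≤ (4 * K * L) ^ 36 * (A ∩ sbx t z).card := by
  classical
  have hn : (0 : ℝ) < A.card := by exact_mod_cast Finset.card_pos.2 hAne
  have hL1 : 1 ≤ L := by
    have : (A.card : ℝ) ≤ S.card := by exact_mod_cast Finset.card_le_card hAS
    by_contra hneg
    push Not at hneg
    nlinarith
  have hK1 : 1 ≤ K := by
    have : (A.card : ℝ) ≤ (A + A).card := by
      exact_mod_cast Finset.card_le_card_add_left hAne
    by_contra hneg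
    push Not at hneg
    nlinarith
  set Q : ℝ := 4 * K * L with hQ
  have hKL : 1 ≤ K * L := one_le_mul_of_one_le_of_one_le hK1 hL1
  have hQ4 : 4 ≤ Q := by rw [hQ]; nlinarith
  have hQpos : 0 < Q := by linarith
  have hhalf := step1 A S K L hAS hS hAne hK hL
  set A1 := A.filter (fun x => ((3 : ℝ) / 2) ^ nz x ≤ 4 * K * L) with hA1
  have hq := step2 A A1 K (Finset.filter_subset _ _) hAne hK hhalf
  set X := A1.filter (fun x => (A.card : ℝ) / (16 * K) ≤ ∏ i, w (x i)) with hX
  have hXne : X.Nonempty := by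
    rw [← Finset.card_pos]
    have : (0 : ℝ) < X.card := lt_of_lt_of_le (by positivity) hq
    exact_mod_cast this
  have hXA : X ⊆ A := (Finset.filter_subset _ _).trans (Finset.filter_subset _ _)
  have hXpow : ∀ x ∈ X, ((3 : ℝ) / 2) ^ nz x ≤ Q := fun x hx =>
    (Finset.mem_filter.1 (Finset.filter_subset _ _ hx)).2
  have hbig : ∀ x ∈ X, (A.card : ℝ) / Q ^ 8 ≤ (bx x).card := by
    intro x hx
    have h1 := (Finset.mem_filter.1 hx).2
    rw [prod_w] at h1
    have h2 := hXpow x hx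
    have h3 : (8 : ℝ) ^ nz x ≤ Q ^ 6 := by
      calc (8 : ℝ) ^ nz x ≤ (((3 : ℝ) / 2) ^ 6) ^ nz x :=
            pow_le_pow_left₀ (by norm_num) (by norm_num) _
        _ = (((3 : ℝ) / 2) ^ nz x) ^ 6 := by rw [← pow_mul, ← pow_mul, mul_comm]
        _ ≤ Q ^ 6 := pow_le_pow_left₀ (by positivity) h2 6
    have h4 : 16 * K ≤ Q ^ 2 := by rw [hQ]; nlinarith
    have h5 : (A.card : ℝ) ≤ (16 * K) * (8 ^ nz x * (bx x).card) := by
      rw [div_le_iff₀ (by positivity)] at h1
      linarith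
    rw [div_le_iff₀ (by positivity)]
    calc (A.card : ℝ) ≤ (16 * K) * (8 ^ nz x * (bx x).card) := h5
      _ ≤ Q ^ 2 * (Q ^ 6 * (bx x).card) := by
          refine mul_le_mul h4 (mul_le_mul_of_nonneg_right h3 (by positivity)) (by positivity)
            (by positivity)
      _ = _ := by ring
  have hXS : ∀ x ∈ X, bx x ⊆ S := fun x hx => hS x (hAS (hXA hx))
  have hL0 : 0 < L := by linarith
  obtain ⟨z, hz, hY⟩ := step3 X S A.card (Q ^ 8) L hXne hn (by positivity) hL0 hXS hL hbig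
  set θ : ℝ := (A.card : ℝ) / (2 * L * (Q ^ 8) ^ 2) with hθ
  have hθ0 : 0 < θ := by positivity
  set Y := X.filter (fun x => θ ≤ ((bx x ∩ bx z).card : ℝ)) with hYdef
  have hYX : Y ⊆ X := Finset.filter_subset _ _
  have hYcard : (A.card : ℝ) / 4 / (2 * L ^ 2 * (Q ^ 8) ^ 2) ≤ Y.card :=
    le_trans (div_le_div_of_nonneg_right hq (by positivity)) hY
  have hYne : Y.Nonempty := by
    rw [← Finset.card_pos]
    have : (0 : ℝ) < Y.card := lt_of_lt_of_le (by positivity) hYcard
    exact_mod_cast this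
  obtain ⟨t, ht, hfin⟩ := step4 Y S z θ hθ0 (fun x hx => hXS x (hYX hx))
    (fun x hx => (Finset.mem_filter.1 hx).2) hYne
  refine ⟨z, hXA hz, t, hXA (hYX ht), hXpow z hz, ?_, ?_⟩
  · refine le_trans ?_ hL
    exact_mod_cast Finset.card_le_card (hXS z hz)
  · have h1 : ((Y ∩ sbx t z).card : ℝ) ≤ (A ∩ sbx t z).card := by
      exact_mod_cast Finset.card_le_card
        (Finset.inter_subset_inter_right (hYX.trans hXA))
    have h2 : (Y.card : ℝ) * θ ≤ (A ∩ sbx t z).card * (L * A.card) :=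
      hfin.trans (mul_le_mul h1 hL (by positivity) (by positivity))
    clear_value Y X A1 θ
    have h3 : (A.card : ℝ) / 4 / (2 * L ^ 2 * (Q ^ 8) ^ 2) * θ ≤
        (A ∩ sbx t z).card * (L * A.card) :=
      (mul_le_mul_of_nonneg_right hYcard hθ0.le).trans h2
    have h4 : (A.card : ℝ) / 4 / (2 * L ^ 2 * (Q ^ 8) ^ 2) * θ =
        (A.card * A.card) / (16 * L ^ 3 * Q ^ 32) := by
      have e := alg (A.card : ℝ) L (Q ^ 8) hL0 (by positivity)
      rw [hθ, e]
      congr 2
      ring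
    rw [h4, div_le_iff₀ (by positivity)] at h3
    have h5 : (A.card : ℝ) * A.card ≤ A.card * (16 * L ^ 4 * Q ^ 32 * (A ∩ sbx t z).card) := by
      calc (A.card : ℝ) * A.card ≤ _ := h3
        _ = _ := by ring
    have h6 := le_of_mul_le_mul_left h5 hn
    refine h6.trans ?_
    refine mul_le_mul_of_nonneg_right ?_ (by positivity)
    have h7 : 16 * L ^ 4 ≤ Q ^ 4 := by
      have h8 : 4 * L ≤ Q := by rw [hQ]; nlinarith
      calc 16 * L ^ 4 ≤ (4 * L) ^ 4 := by nlinarith [pow_pos hL0 4]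
        _ ≤ Q ^ 4 := pow_le_pow_left₀ (by positivity) h8 4
    calc 16 * L ^ 4 * Q ^ 32 ≤ Q ^ 4 * Q ^ 32 := mul_le_mul_of_nonneg_right h7 (by positivity)
      _ = Q ^ 36 := by ring

end Helper12DS
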