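import Pool.Agent.Helper12DS.Defs
import Pool.Agent.Helper12DS.Main

set_option autoImplicit false

open scoped Pointwise

namespace Helper12DS

open Finset

lemma nz_eq {d : ℕ} (z : Fin d → ℤ) : nz z = (univ.filter (fun i => z i ≠ 0)).card := by
  classical
  rw [nz, Finset.card_eq_sum_ones, Finset.sum_filter]
  refine Finset.sum_congr rfl (fun i _ => ?_)
  by_cases h : z i = 0 <;> simp [h]

/-- a symmetric box is a progression whose rank is the number of nonzero side lengths -/
lemma box_prog {d : ℕ} (τ z : Fin d → ℤ) : ∃ (v : Fin (nz z) → (Fin d → ℤ)) (N : Fin (nz z) → ℕ),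
    (∀ i, 1 ≤ N i) ∧ (∏ i, N i = (sbx τ z).card) ∧
    ((sbx τ z : Finset (Fin d → ℤ)) : Set (Fin d → ℤ)) = prog (τ - |z|) v N := by
  classical
  set I : Finset (Fin d) := univ.filter (fun i => z i ≠ 0) with hI
  have hcard : Fintype.card (Fin (nz z)) = Fintype.card I := by
    rw [Fintype.card_fin, Fintype.card_coe, nz_eq]
  let e : Fin (nz z) ≃ I := Fintype.equivOfCardEq hcard
  refine ⟨fun j => Pi.single (e j : Fin d) 1, fun j => 2 * (z (e j)).natAbs + 1,
    fun j => Nat.le_add_left 1 _, ?_, ?_⟩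
  · unfold sbx
    rw [Pi.card_Icc]
    have h1 : ∏ j : Fin (nz z), (2 * (z (e j)).natAbs + 1) = ∏ i : I, (2 * (z i).natAbs + 1) :=
      Equiv.prod_comp e (fun i : I => 2 * (z i).natAbs + 1)
    rw [h1, Finset.prod_coe_sort I (fun i => 2 * (z i).natAbs + 1)]
    rw [hI, Finset.prod_filter]
    refine Finset.prod_congr rfl (fun i _ => ?_)
    rw [Int.card_Icc]
    simp only [Pi.add_apply, Pi.sub_apply, Pi.abs_apply]
    by_cases h : z i = 0
    · simp [h]
    · rw [if_pos h]
      have : |z i| = ((z i).natAbs : ℤ) := Int.abs_eq_natAbs _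
      omega
  · have hsum : ∀ (n : Fin (nz z) → ℕ) (i : Fin d),
        (∑ j, n j • (Pi.single (e j : Fin d) (1 : ℤ) : Fin d → ℤ)) i =
          if h : i ∈ I then (n (e.symm ⟨i, h⟩) : ℤ) else 0 := by
      intro n i
      rw [Finset.sum_apply]
      split_ifs with h
      · rw [Finset.sum_eq_single (e.symm ⟨i, h⟩)]
        · simp
        · intro j _ hj
          have hne : (e j : Fin d) ≠ i := by
            intro hh
            apply hj
            rw [Equiv.eq_symm_apply]
            exact Subtype.ext hh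
          simp only [Pi.smul_apply, Pi.single_apply, if_neg hne.symm, smul_zero]
        · simp
      · refine Finset.sum_eq_zero (fun j _ => ?_)
        have hne : (e j : Fin d) ≠ i := by
          intro hh
          exact h (hh ▸ (e j).2)
        simp only [Pi.smul_apply, Pi.single_apply, if_neg hne.symm, smul_zero]
    ext y
    rw [Finset.mem_coe, mem_sbx]
    constructor
    · intro hy
      refine ⟨fun j => (y (e j) - τ (e j) + |z (e j)|).toNat, fun j => ?_, ?_⟩
      · have h1 := hy (e j)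
        have : |z (e j)| = ((z (e j)).natAbs : ℤ) := Int.abs_eq_natAbs _
        beta_reduce
        omega
      · funext i
        rw [Pi.add_apply, hsum]
        have h1 := hy i
        split_ifs with h
        · simp only [Equiv.apply_symm_apply, Pi.sub_apply, Pi.abs_apply]
          omega
        · have h0 : z i = 0 := by
            by_contra hne
            exact h (Finset.mem_filter.2 ⟨Finset.mem_univ _, hne⟩)
          simp only [Pi.sub_apply, Pi.abs_apply, h0, abs_zero] at h1 ⊢
          omega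
    · rintro ⟨n, hn, rfl⟩ i
      rw [Pi.add_apply, hsum]
      simp only [Pi.sub_apply, Pi.abs_apply]
      split_ifs with h
      · have h1 := hn (e.symm ⟨i, h⟩)
        simp only [Equiv.apply_symm_apply] at h1
        have : |z i| = ((z i).natAbs : ℤ) := Int.abs_eq_natAbs _
        omega
      · have h0 : z i = 0 := by
          by_contra hne
          exact h (Finset.mem_filter.2 ⟨Finset.mem_univ _, hne⟩)
        simp [h0]

lemma prog_image {d r : ℕ} {G : Type*} [AddCommGroup G] (φ : (Fin d → ℤ) →+ G) (t : G)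
    (a : Fin d → ℤ) (v : Fin r → (Fin d → ℤ)) (N : Fin r → ℕ) :
    (fun x => t + φ x) '' prog a v N = prog (t + φ a) (fun i => φ (v i)) N := by
  ext y
  constructor
  · rintro ⟨x, ⟨n, hn, rfl⟩, rfl⟩
    refine ⟨n, hn, ?_⟩
    simp only [map_add, map_sum, map_nsmul, add_assoc]
  · rintro ⟨n, hn, rfl⟩
    refine ⟨a + ∑ i, n i • v i, ⟨n, hn, rfl⟩, ?_⟩
    simp only [map_add, map_sum, map_nsmul, add_assoc]

/-- **Polynomial Freiman-Ruzsa for sets commensurate with a solid set.** -/
theorem solid_pfr {G : Type*} [AddCommGroup G] (K L : ℝ) (A : Set G) (hA : A.Finite)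
    (hne : A.Nonempty) (hK : ((A + A).ncard : ℝ) ≤ K * A.ncard)
    (d : ℕ) (S : Set (Fin d → ℤ)) (hS : S.Finite) (hSol : Solid S)
    (φ : (Fin d → ℤ) →+ G) (hφ : Set.InjOn φ (S + S)) (t : G)
    (hSL : (S.ncard : ℝ) ≤ L * A.ncard)
    (hAS : (A.ncard : ℝ) ≤ L * (A ∩ (fun x => t + φ x) '' S).ncard) :
    ∃ (r : ℕ) (a : G) (v : Fin r → G) (N : Fin r → ℕ),
      (r : ℝ) ≤ 9 * Real.log (2 * K * L) ∧ (∀ i, 1 ≤ N i) ∧
      (prog a v N).ncard = ∏ i, N i ∧
      ((prog a v N).ncard : ℝ) ≤ (2 * K * L) ^ 8 * A.ncard ∧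
      (A.ncard : ℝ) ≤ (2 * K * L) ^ 109 * (A ∩ prog a v N).ncard := by
  classical
  -- finsets
  set S' : Finset (Fin d → ℤ) := hS.toFinset with hS'
  have hS'mem : ∀ x, x ∈ S' ↔ x ∈ S := fun x => hS.mem_toFinset
  set A1 : Finset (Fin d → ℤ) := S'.filter (fun x => t + φ x ∈ A) with hA1
  have hA1S : A1 ⊆ S' := Finset.filter_subset _ _
  have hn : 0 < A.ncard := (Set.ncard_pos hA).2 hne
  have hnR : (0 : ℝ) < A.ncard := by exact_mod_cast hn
  -- injectivity
  have hinj2 : ∀ a ∈ S, ∀ b ∈ S, ∀ a' ∈ S, ∀ b' ∈ S, φ (a - b) = φ (a' - b') → a - b = a' - b' := by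
    intro a ha b hb a' ha' b' hb' h
    have h1 : φ (a + b') = φ (a' + b) := by
      rw [map_sub, map_sub] at h
      rw [map_add, map_add]
      rw [sub_eq_sub_iff_add_eq_add] at h
      exact h
    have h2 := hφ (Set.add_mem_add ha hb') (Set.add_mem_add ha' hb) h1
    rw [sub_eq_sub_iff_add_eq_add]
    exact h2
  have hinj1 : Set.InjOn φ S := by
    intro a ha b hb h
    have := hφ (Set.add_mem_add ha ha) (Set.add_mem_add hb ha)
      (by rw [map_add, map_add, h])
    exact add_right_cancel this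
  -- the size of `A1`
  have himg : A ∩ (fun x => t + φ x) '' S = (fun x => t + φ x) '' (A1 : Set (Fin d → ℤ)) := by
    ext y
    constructor
    · rintro ⟨hy, x, hx, rfl⟩
      exact ⟨x, by
        rw [Finset.mem_coe, hA1, Finset.mem_filter]
        exact ⟨(hS'mem x).2 hx, hy⟩, rfl⟩
    · rintro ⟨x, hx, rfl⟩
      rw [Finset.mem_coe, hA1, Finset.mem_filter] at hx
      exact ⟨hx.2, x, (hS'mem x).1 hx.1, rfl⟩
  have hcardA1 : (A ∩ (fun x => t + φ x) '' S).ncard = A1.card := by
    rw [himg, Set.InjOn.ncard_image, Set.ncard_coe_finset]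
    intro a ha b hb h
    have h' : φ a = φ b := add_left_cancel h
    exact hinj1 ((hS'mem a).1 (hA1S (Finset.mem_coe.1 ha)))
      ((hS'mem b).1 (hA1S (Finset.mem_coe.1 hb))) h'
  rw [hcardA1] at hAS
  have hSc : S.ncard = S'.card := Set.ncard_eq_toFinset_card S hS
  rw [hSc] at hSL
  have hA1le : (A1.card : ℝ) ≤ A.ncard := by
    rw [← hcardA1]
    exact_mod_cast Set.ncard_le_ncard Set.inter_subset_left hA
  have hA1pos : (0 : ℝ) < A1.card := by
    by_contra hcon
    push Not at hcon
    have h0 : (A1.card : ℝ) = 0 := le_antisymm hcon (by positivity)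
    rw [h0, mul_zero] at hAS
    linarith
  have hA1ne : A1.Nonempty := Finset.card_pos.1 (by exact_mod_cast hA1pos)
  have hA1S' : (A1.card : ℝ) ≤ S'.card := by exact_mod_cast Finset.card_le_card hA1S
  have hL1 : 1 ≤ L := by
    by_contra hneg
    push Not at hneg
    have hL0 : 0 < L := by
      by_contra hh
      push Not at hh
      nlinarith
    nlinarith
  have hK1 : 1 ≤ K := by
    have h1 : (A.ncard : ℝ) ≤ (A + A).ncard := by
      obtain ⟨a, ha⟩ := hne
      have h2 : ((fun x => a + x) '' A).ncard = A.ncard :=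
        Set.ncard_image_of_injective _ (add_right_injective a)
      have h3 : (fun x => a + x) '' A ⊆ A + A := by
        rintro _ ⟨x, hx, rfl⟩
        exact Set.add_mem_add ha hx
      have h4 := Set.ncard_le_ncard h3 (hA.add hA)
      rw [h2] at h4
      exact_mod_cast h4
    by_contra hneg
    push Not at hneg
    nlinarith
  -- small doubling of `A1`
  have hdoub : ((A1 + A1).card : ℝ) ≤ (K * L) * A1.card := by
    have h1 : (A1 + A1).card ≤ (A + A).ncard := by
      have h2 : ((fun x => (t + t) + φ x) '' ((A1 + A1 : Finset (Fin d → ℤ)) : Set (Fin d → ℤ))).ncard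
          = (A1 + A1).card := by
        rw [Set.InjOn.ncard_image, Set.ncard_coe_finset]
        intro a ha b hb h
        have h' : φ a = φ b := add_left_cancel h
        rw [Finset.mem_coe, Finset.mem_add] at ha hb
        obtain ⟨a1, ha1, a2, ha2, rfl⟩ := ha
        obtain ⟨b1, hb1, b2, hb2, rfl⟩ := hb
        exact hφ (Set.add_mem_add ((hS'mem _).1 (hA1S ha1)) ((hS'mem _).1 (hA1S ha2)))
          (Set.add_mem_add ((hS'mem _).1 (hA1S hb1)) ((hS'mem _).1 (hA1S hb2))) h'
      rw [← h2]
      refine Set.ncard_le_ncard ?_ (hA.add hA)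
      rintro _ ⟨x, hx, rfl⟩
      rw [Finset.mem_coe, Finset.mem_add] at hx
      obtain ⟨a1, ha1, a2, ha2, rfl⟩ := hx
      have h3 : (t + t) + φ (a1 + a2) = (t + φ a1) + (t + φ a2) := by
        rw [map_add]; abel
      simp only
      rw [h3]
      exact Set.add_mem_add (Finset.mem_filter.1 ha1).2 (Finset.mem_filter.1 ha2).2
    have h1' : ((A1 + A1).card : ℝ) ≤ (A + A).ncard := by exact_mod_cast h1
    calc ((A1 + A1).card : ℝ) ≤ K * A.ncard := h1'.trans hK
      _ ≤ K * (L * A1.card) := mul_le_mul_of_nonneg_left hAS (by linarith)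
      _ = _ := by ring
  have hSL' : (S'.card : ℝ) ≤ L ^ 2 * A1.card := by
    calc (S'.card : ℝ) ≤ L * A.ncard := hSL
      _ ≤ L * (L * A1.card) := mul_le_mul_of_nonneg_left hAS (by linarith)
      _ = _ := by ring
  have hSol' : Sol S' := by
    intro x hx y hy
    rw [hS'mem] at hx ⊢
    refine hSol x hx ?_
    have := hy
    unfold bx at this
    rwa [← Finset.mem_coe, Finset.coe_uIcc] at this
  obtain ⟨z, hz, τ, hτ, hrank, hbx, hmain⟩ := core A1 S' (K * L) (L ^ 2) hA1S hSol' hA1ne hdoub hSL'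
  obtain ⟨v, N, hN, hprod, hprog⟩ := box_prog τ z
  have hKL : 1 ≤ K * L := one_le_mul_of_one_le_of_one_le hK1 hL1
  set W : ℝ := 2 * K * L with hW
  have hW2 : 2 ≤ W := by rw [hW]; nlinarith
  have hWpos : 0 < W := by linarith
  have hLW : L ≤ W := by rw [hW]; nlinarith
  have hzS : z ∈ S := (hS'mem z).1 (hA1S hz)
  -- elements of the symmetric box around zero are differences of elements of `S`
  have hdiff : ∀ y ∈ sbx τ z, ∃ p ∈ S, ∃ q ∈ S, y = τ + (p - q) := by
    intro y hy
    rw [mem_sbx] at hy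
    refine ⟨fun i => if 0 ≤ z i then max 0 (y i - τ i) else min 0 (y i - τ i), ?_,
      fun i => if 0 ≤ z i then max 0 (τ i - y i) else min 0 (τ i - y i), ?_, ?_⟩
    · rw [← hS'mem]
      refine hSol' z (hA1S hz) (mem_bx.2 (fun i => ?_))
      have h1 := hy i
      by_cases h : 0 ≤ z i
      · simp only [if_pos h]
        rw [abs_of_nonneg h] at h1
        omega
      · simp only [if_neg h]
        push Not at h
        rw [abs_of_neg h] at h1
        omega
    · rw [← hS'mem]
      refine hSol' z (hA1S hz) (mem_bx.2 (fun i => ?_))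
      have h1 := hy i
      by_cases h : 0 ≤ z i
      · simp only [if_pos h]
        rw [abs_of_nonneg h] at h1
        omega
      · simp only [if_neg h]
        push Not at h
        rw [abs_of_neg h] at h1
        omega
    · funext i
      simp only [Pi.add_apply, Pi.sub_apply]
      split_ifs <;> omega
  have hinjB : Set.InjOn (fun x => t + φ x) ((sbx τ z : Finset (Fin d → ℤ)) : Set (Fin d → ℤ)) := by
    intro a ha b hb h
    have h' : φ a = φ b := add_left_cancel h
    obtain ⟨p, hp, q, hq, rfl⟩ := hdiff a (Finset.mem_coe.1 ha)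
    obtain ⟨p', hp', q', hq', rfl⟩ := hdiff b (Finset.mem_coe.1 hb)
    rw [map_add, map_add] at h'
    rw [hinj2 p hp q hq p' hp' q' hq' (add_left_cancel h')]
  have hP : prog (t + φ (τ - |z|)) (fun i => φ (v i)) N =
      (fun x => t + φ x) '' ((sbx τ z : Finset (Fin d → ℤ)) : Set (Fin d → ℤ)) := by
    rw [hprog, prog_image]
  have hPcard : (prog (t + φ (τ - |z|)) (fun i => φ (v i)) N).ncard = (sbx τ z).card := by
    rw [hP, hinjB.ncard_image, Set.ncard_coe_finset]
  -- numerical bounds
  have hQ : 4 * (K * L) * L ^ 2 ≤ W ^ 3 := by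
    rw [hW]
    have : (2 * K * L) ^ 3 = 8 * (K * L) * L ^ 2 * K ^ 2 := by ring
    rw [this]
    have hK2 : 1 ≤ K ^ 2 := one_le_pow₀ hK1
    have h0 : 0 ≤ 4 * (K * L) * L ^ 2 := by positivity
    nlinarith
  have hrank' : ((3 : ℝ) / 2) ^ nz z ≤ W ^ 3 := hrank.trans hQ
  refine ⟨nz z, t + φ (τ - |z|), fun i => φ (v i), N, ?_, hN, ?_, ?_, ?_⟩
  · -- rank
    have h1 := Real.log_le_log (by positivity) hrank'
    rw [Real.log_pow, Real.log_pow] at h1
    have h2 : (1 : ℝ) / 3 ≤ Real.log (3 / 2) := by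
      have := Real.one_sub_inv_le_log_of_pos (show (0 : ℝ) < 3 / 2 by norm_num)
      norm_num at this
      linarith
    have h3 : (nz z : ℝ) * (1 / 3) ≤ nz z * Real.log (3 / 2) :=
      mul_le_mul_of_nonneg_left h2 (by positivity)
    push_cast at h1
    linarith
  · rw [hPcard, hprod]
  · -- size
    rw [hPcard]
    have h1 : ((sbx τ z).card : ℝ) ≤ 2 ^ nz z * (bx z).card := by
      have e1 : ((sbx τ z).card : ℝ) = ∏ i, (2 * ((|z i| : ℤ) : ℝ) + 1) := by
        unfold sbx
        rw [Pi.card_Icc]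
        push_cast
        refine Finset.prod_congr rfl (fun i _ => ?_)
        rw [Int.card_Icc]
        simp only [Pi.add_apply, Pi.sub_apply, Pi.abs_apply]
        have h0 : 0 ≤ |z i| := abs_nonneg _
        have e2 : (((τ i + |z i| + 1 - (τ i - |z i|)).toNat : ℕ) : ℤ) = 2 * |z i| + 1 := by omega
        have e3 : (((τ i + |z i| + 1 - (τ i - |z i|)).toNat : ℕ) : ℝ) =
            ((2 * |z i| + 1 : ℤ) : ℝ) := by
          rw [← e2]; push_cast; rfl
        rw [e3]
        push_cast
        ring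
      rw [e1, card_bx, nz, ← Finset.prod_pow_eq_pow_sum, ← Finset.prod_mul_distrib]
      refine Finset.prod_le_prod (fun i _ => ?_) (fun i _ => ?_)
      · have : (0 : ℝ) ≤ ((|z i| : ℤ) : ℝ) := by exact_mod_cast abs_nonneg _
        linarith
      · have h0 : (0 : ℝ) ≤ ((|z i| : ℤ) : ℝ) := by exact_mod_cast abs_nonneg _
        split_ifs with h
        · simp [h]
        · simp only [pow_one]
          linarith
    have h2 : (2 : ℝ) ^ nz z ≤ (4 * (K * L) * L ^ 2) ^ 2 := by
      calc (2 : ℝ) ^ nz z ≤ (((3 : ℝ) / 2) ^ 2) ^ nz z :=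
            pow_le_pow_left₀ (by norm_num) (by norm_num) _
        _ = (((3 : ℝ) / 2) ^ nz z) ^ 2 := by rw [← pow_mul, ← pow_mul, mul_comm]
        _ ≤ _ := pow_le_pow_left₀ (by positivity) hrank 2
    calc ((sbx τ z).card : ℝ) ≤ 2 ^ nz z * (bx z).card := h1
      _ ≤ (4 * (K * L) * L ^ 2) ^ 2 * (L ^ 2 * A.ncard) := by
          refine mul_le_mul h2 (hbx.trans ?_) (by positivity) (by positivity)
          exact mul_le_mul_of_nonneg_left hA1le (by positivity)
      _ = (16 * K ^ 2 * L ^ 8) * A.ncard := by ring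
      _ ≤ W ^ 8 * A.ncard := by
          refine mul_le_mul_of_nonneg_right ?_ hnR.le
          have e : W ^ 8 = 16 * K ^ 2 * L ^ 8 * (16 * K ^ 6) := by rw [hW]; ring
          rw [e]
          have hK6 : 1 ≤ K ^ 6 := one_le_pow₀ hK1
          have h0 : 0 ≤ 16 * K ^ 2 * L ^ 8 := by positivity
          nlinarith
  · -- intersection
    have h1 : ((A1 ∩ sbx τ z).card : ℝ) ≤ (A ∩ prog (t + φ (τ - |z|)) (fun i => φ (v i)) N).ncard := by
      have h2 : ((fun x => t + φ x) '' ((A1 ∩ sbx τ z : Finset (Fin d → ℤ)) : Set (Fin d → ℤ))).ncard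
          = (A1 ∩ sbx τ z).card := by
        rw [Set.InjOn.ncard_image, Set.ncard_coe_finset]
        exact hinjB.mono (by
          rw [Finset.coe_subset]
          exact Finset.inter_subset_right)
      have h3 : (fun x => t + φ x) '' ((A1 ∩ sbx τ z : Finset (Fin d → ℤ)) : Set (Fin d → ℤ)) ⊆
          A ∩ prog (t + φ (τ - |z|)) (fun i => φ (v i)) N := by
        rintro _ ⟨x, hx, rfl⟩
        rw [Finset.mem_coe, Finset.mem_inter] at hx
        refine ⟨(Finset.mem_filter.1 hx.1).2, ?_⟩
        rw [hP]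
        exact ⟨x, Finset.mem_coe.2 hx.2, rfl⟩
      have h4 := Set.ncard_le_ncard h3 (hA.inter_of_left _)
      rw [h2] at h4
      exact_mod_cast h4
    have h5 : (4 * (K * L) * L ^ 2) ^ 36 ≤ W ^ 108 := by
      calc (4 * (K * L) * L ^ 2) ^ 36 ≤ (W ^ 3) ^ 36 := pow_le_pow_left₀ (by positivity) hQ 36
        _ = W ^ 108 := by rw [← pow_mul]
    calc (A.ncard : ℝ) ≤ L * A1.card := hAS
      _ ≤ W * (W ^ 108 * (A1 ∩ sbx τ z).card) := by
          refine mul_le_mul hLW (hmain.trans ?_) (by positivity) hWpos.le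
          exact mul_le_mul_of_nonneg_right h5 (by positivity)
      _ = W ^ 109 * (A1 ∩ sbx τ z).card := by ring
      _ ≤ _ := mul_le_mul_of_nonneg_left h1 (by positivity)

end Helper12DS
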