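import Pool.Agent.Helper12DS.Basic

set_option autoImplicit false

open Finset
open scoped Pointwise

namespace Helper12DS

/-- number of nonzero coordinates -/
def nz {d : ℕ} (x : Fin d → ℤ) : ℕ := ∑ i, if x i = 0 then 0 else 1

lemma nz_pre {d : ℕ} (t : ℤ) (y : Fin d → ℤ) : nz (pre t y) = (if t = 0 then 0 else 1) + nz y := by
  simp [nz, pre, Fin.sum_univ_succ]

/-- closed under replacing a coordinate by zero -/
def ZC {d : ℕ} (S : Finset (Fin d → ℤ)) : Prop := ∀ x ∈ S, ∀ i, Function.update x i 0 ∈ S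

lemma ZC.slice {d : ℕ} {S : Finset (Fin (d + 1) → ℤ)} (h : ZC S) (t : ℤ) : ZC (slice S t) := by
  intro y hy i
  rw [mem_slice] at hy ⊢
  have h1 := h _ hy i.succ
  have h2 : Function.update (pre t y) i.succ 0 = pre t (Function.update y i 0) := by
    simp [pre]
  rwa [h2] at h1

lemma ZC.slice_subset {d : ℕ} {S : Finset (Fin (d + 1) → ℤ)} (h : ZC S) (t : ℤ) :
    Helper12DS.slice S t ⊆ Helper12DS.slice S 0 := by
  intro y hy
  rw [mem_slice] at hy ⊢
  have h1 := h _ hy 0
  have h2 : Function.update (pre t y) 0 0 = pre 0 y := by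
    simp [pre]
  rwa [h2] at h1

/-- the constant `√(3/2)` -/
noncomputable def lam : ℝ := Real.sqrt (3 / 2)

lemma lam_sq : lam ^ 2 = 3 / 2 := Real.sq_sqrt (by norm_num)
lemma lam_pos : 0 < lam := Real.sqrt_pos.2 (by norm_num)
lemma one_le_lam : 1 ≤ lam := by
  unfold lam
  rw [Real.one_le_sqrt]
  norm_num

/-- the functional `Φ(A) = Σ_{x ∈ A} λ^{|supp x|}` -/
noncomputable def Phi {d : ℕ} (A : Finset (Fin d → ℤ)) : ℝ := ∑ x ∈ A, lam ^ nz x

lemma Phi_nonneg {d : ℕ} (A : Finset (Fin d → ℤ)) : 0 ≤ Phi A :=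
  Finset.sum_nonneg (fun _ _ => pow_nonneg lam_pos.le _)

lemma Phi_slices {d : ℕ} (A : Finset (Fin (d + 1) → ℤ)) :
    Phi A = ∑ t ∈ heights A, (if t = 0 then 1 else lam) * Phi (slice A t) := by
  unfold Phi
  rw [sum_slices A (heights A) subset_rfl]
  refine Finset.sum_congr rfl (fun t _ => ?_)
  rw [Finset.mul_sum]
  refine Finset.sum_congr rfl (fun y _ => ?_)
  rw [nz_pre]
  split_ifs with h
  · simp
  · rw [pow_add, pow_one]

/-- the one-dimensional step for the functional `Φ² / |S|` -/
lemma Phi_step {d : ℕ} (A S : Finset (Fin (d + 1) → ℤ)) (hAS : A ⊆ S) (hS : ZC S)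
    (t0 : ℤ) (ht0 : t0 ∈ heights A) :
    Phi A ^ 2 ≤ (2 * ∑ t ∈ heights A, Phi (slice A t) ^ 2 / (slice S t).card
      - Phi (slice A t0) ^ 2 / (slice S t0).card) * S.card := by
  have hsl : ∀ t, slice A t ⊆ slice S t := fun t y hy => by
    rw [mem_slice] at hy ⊢; exact hAS hy
  have hpos : ∀ t ∈ heights A, (0 : ℝ) < (slice S t).card := by
    intro t ht
    have : 0 < (slice S t).card := Finset.card_pos.2 ((mem_heights.1 ht).mono (hsl t))
    exact_mod_cast this
  -- Cauchy-Schwarz with weights `m t`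
  set m : ℤ → ℝ := fun t => if t = t0 then 1 else 2 with hm
  have hm0 : ∀ t, 0 < m t := fun t => by simp only [hm]; split_ifs <;> norm_num
  set P : ℤ → ℝ := fun t => Phi (slice A t) ^ 2 / (slice S t).card with hP
  have hP0 : ∀ t, 0 ≤ P t := fun t => by simp only [hP]; positivity
  set L : ℤ → ℝ := fun t => if t = 0 then 1 else lam with hL
  have hL2 : ∀ t, L t ^ 2 = if t = 0 then 1 else 3 / 2 := by
    intro t; simp only [hL]; split_ifs
    · norm_num
    · exact lam_sq
  have hcs : (∑ t ∈ heights A, L t * Phi (slice A t)) ^ 2 ≤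
      (∑ t ∈ heights A, m t * P t) * ∑ t ∈ heights A, L t ^ 2 * (slice S t).card / m t := by
    refine Finset.sum_sq_le_sum_mul_sum_of_sq_le_mul _ (fun t ht => ?_) (fun t ht => ?_)
      (fun t ht => le_of_eq ?_)
    · exact mul_nonneg (hm0 t).le (hP0 t)
    · exact div_nonneg (mul_nonneg (sq_nonneg _) (by positivity)) (hm0 t).le
    · have h1 := (hpos t ht).ne'
      have h2 := (hm0 t).ne'
      simp only [hP]
      field_simp
  have h1 : ∑ t ∈ heights A, m t * P t = 2 * ∑ t ∈ heights A, P t - P t0 := by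
    have : ∀ t ∈ heights A, m t * P t = 2 * P t - (if t = t0 then P t else 0) := by
      intro t _
      simp only [hm]
      split_ifs <;> ring
    rw [Finset.sum_congr rfl this, Finset.sum_sub_distrib, ← Finset.mul_sum,
      Finset.sum_ite_eq' (heights A) t0 P, if_pos ht0]
  have h2 : ∑ t ∈ heights A, L t ^ 2 * (slice S t).card / m t ≤ S.card := by
    set E := insert 0 (heights A) with hE
    have hsub : heights A ⊆ E := Finset.subset_insert _ _
    have h0E : (0 : ℤ) ∈ E := Finset.mem_insert_self _ _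
    have h3 : ∑ t ∈ heights A, L t ^ 2 * (slice S t).card / m t ≤
        ∑ t ∈ E, L t ^ 2 * (slice S t).card / m t :=
      Finset.sum_le_sum_of_subset_of_nonneg hsub (fun t _ _ =>
        div_nonneg (mul_nonneg (sq_nonneg _) (by positivity)) (hm0 t).le)
    refine h3.trans (le_trans ?_ (sum_card_slices_le S E))
    by_cases h00 : t0 = 0
    · refine Finset.sum_le_sum (fun t _ => ?_)
      rw [hL2]
      simp only [hm]
      have hc : (0 : ℝ) ≤ (slice S t).card := by positivity
      by_cases ht : t = 0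
      · rw [if_pos ht, if_pos (by rw [ht, h00])]; linarith
      · rw [if_neg ht, if_neg (by rw [h00]; exact ht)]; linarith
    · have h4 : ∀ t ∈ E, L t ^ 2 * (slice S t).card / m t ≤ (slice S t).card +
          ((if t = t0 then ((slice S t).card : ℝ) / 2 else 0) -
            (if t = 0 then ((slice S t).card : ℝ) / 2 else 0)) := by
        intro t _
        rw [hL2]
        simp only [hm]
        have hc : (0 : ℝ) ≤ (slice S t).card := by positivity
        by_cases ht : t = 0
        · have : ¬ t = t0 := fun hh => h00 (hh ▸ ht)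
          simp only [ht, if_true] at *
          rw [if_neg this, if_neg this]; linarith
        · rw [if_neg ht, if_neg ht]
          by_cases ht' : t = t0
          · rw [if_pos ht', if_pos ht']; linarith
          · rw [if_neg ht', if_neg ht']; linarith
      refine (Finset.sum_le_sum h4).trans ?_
      rw [Finset.sum_add_distrib, Finset.sum_sub_distrib,
        Finset.sum_ite_eq' E t0 (fun t => ((slice S t).card : ℝ) / 2),
        Finset.sum_ite_eq' E 0 (fun t => ((slice S t).card : ℝ) / 2), if_pos h0E,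
        if_pos (hsub ht0)]
      have h5 : ((slice S t0).card : ℝ) ≤ (slice S 0).card := by
        exact_mod_cast Finset.card_le_card (hS.slice_subset t0)
      linarith
  rw [Phi_slices]
  refine hcs.trans ?_
  rw [h1]
  refine mul_le_mul_of_nonneg_left h2 ?_
  rw [← h1]
  exact Finset.sum_nonneg (fun t _ => mul_nonneg (hm0 t).le (hP0 t))

/-- **First tensorisation inequality.** For `A ⊆ S`, `B ⊆ T` with `S`, `T` closed under replacing
coordinates by zero, `Φ(A) Φ(B) ≤ |A + B| √(|S| |T|)`. -/
theorem Phi_mul_le : ∀ (d : ℕ) (A B S T : Finset (Fin d → ℤ)), A ⊆ S → B ⊆ T → ZC S → ZC T →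
    Phi A ^ 2 * Phi B ^ 2 ≤ ((A + B).card : ℝ) ^ 2 * (S.card * T.card) := by
  intro d
  induction d with
  | zero =>
    intro A B S T hA hB _ _
    rcases A.eq_empty_or_nonempty with rfl | hAn
    · simp [Phi]
    rcases B.eq_empty_or_nonempty with rfl | hBn
    · simp [Phi]
    have huniv : ∀ X : Finset (Fin 0 → ℤ), X.Nonempty → X.card = 1 := by
      intro X hX
      have h1 : X.card ≤ 1 := Finset.card_le_one.2 (fun a _ b _ => Subsingleton.elim a b)
      have h2 : 0 < X.card := Finset.card_pos.2 hX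
      omega
    have hphi : ∀ X : Finset (Fin 0 → ℤ), X.Nonempty → Phi X = 1 := by
      intro X hX
      unfold Phi
      have : ∀ x ∈ X, lam ^ nz x = 1 := fun x _ => by simp [nz]
      rw [Finset.sum_congr rfl this]
      simp [huniv X hX]
    rw [hphi A hAn, hphi B hBn, huniv _ (hAn.add hBn), huniv S (hAn.mono hA), huniv T (hBn.mono hB)]
    norm_num
  | succ d ih =>
    intro A B S T hA hB hS hT
    rcases A.eq_empty_or_nonempty with rfl | hAn
    · simp [Phi]
    rcases B.eq_empty_or_nonempty with rfl | hBn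
    · simp [Phi]
    have hsA : ∀ t, slice A t ⊆ slice S t := fun t y hy => by
      rw [mem_slice] at hy ⊢; exact hA hy
    have hsB : ∀ t, slice B t ⊆ slice T t := fun t y hy => by
      rw [mem_slice] at hy ⊢; exact hB hy
    have hposS : ∀ t ∈ heights A, (0 : ℝ) < (slice S t).card := by
      intro t ht
      have : 0 < (slice S t).card := Finset.card_pos.2 ((mem_heights.1 ht).mono (hsA t))
      exact_mod_cast this
    have hposT : ∀ t ∈ heights B, (0 : ℝ) < (slice T t).card := by
      intro t ht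
      have : 0 < (slice T t).card := Finset.card_pos.2 ((mem_heights.1 ht).mono (hsB t))
      exact_mod_cast this
    set P : ℤ → ℝ := fun t => Phi (slice A t) ^ 2 / (slice S t).card with hP
    set Q : ℤ → ℝ := fun t => Phi (slice B t) ^ 2 / (slice T t).card with hQ
    obtain ⟨t0, ht0, hmaxP⟩ := Finset.exists_max_image (heights A) P (heights_nonempty hAn)
    obtain ⟨u0, hu0, hmaxQ⟩ := Finset.exists_max_image (heights B) Q (heights_nonempty hBn)
    have key := pl_slices A B P Q t0 u0 ht0 hu0 (fun t _ => by simp only [hP]; positivity)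
      (fun t _ => by simp only [hQ]; positivity) hmaxP hmaxQ (by
        intro s hs t ht
        have h1 := ih (slice A s) (slice B t) (slice S s) (slice T t) (hsA s) (hsB t)
          (hS.slice s) (hT.slice t)
        simp only [hP, hQ]
        rw [div_mul_div_comm, div_le_iff₀ (mul_pos (hposS s hs) (hposT t ht))]
        exact h1)
    have h1 := Phi_step A S hA hS t0 ht0
    have h2 := Phi_step B T hB hT u0 hu0
    have h3 : 0 ≤ (2 * ∑ t ∈ heights B, Q t - Q u0) * T.card := le_trans (sq_nonneg _) h2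
    calc Phi A ^ 2 * Phi B ^ 2
        ≤ ((2 * ∑ t ∈ heights A, P t - P t0) * S.card) *
          ((2 * ∑ t ∈ heights B, Q t - Q u0) * T.card) :=
          mul_le_mul h1 h2 (sq_nonneg _) (le_trans (sq_nonneg _) h1)
      _ = ((2 * ∑ t ∈ heights A, P t - P t0) * (2 * ∑ t ∈ heights B, Q t - Q u0)) *
          (S.card * T.card) := by ring
      _ ≤ _ := mul_le_mul_of_nonneg_right key (by positivity)

/-! ### Second inequality -/

/-- the weight `w 0 = 1`, `w t = 8 (|t| + 1)` for `t ≠ 0` -/
noncomputable def w (t : ℤ) : ℝ := if t = 0 then 1 else 8 * ((|t| : ℤ) + 1)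

lemma w_pos (t : ℤ) : 0 < w t := by
  unfold w
  split_ifs
  · norm_num
  · have : (0 : ℝ) ≤ ((|t| : ℤ) : ℝ) := by exact_mod_cast abs_nonneg t
    linarith

/-- `v t = 1/√(w t)` -/
noncomputable def v (t : ℤ) : ℝ := 1 / Real.sqrt (w t)

lemma v_pos (t : ℤ) : 0 < v t := by
  unfold v
  exact div_pos one_pos (Real.sqrt_pos.2 (w_pos t))

lemma v_zero : v 0 = 1 := by simp [v, w]

lemma v_le_one (t : ℤ) : v t ≤ 1 := by
  unfold v
  rw [div_le_one (Real.sqrt_pos.2 (w_pos t)), Real.one_le_sqrt]
  unfold w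
  split_ifs
  · norm_num
  · have : (0 : ℝ) ≤ ((|t| : ℤ) : ℝ) := by exact_mod_cast abs_nonneg t
    linarith

/-- a finite set of `n` integers has an element with `2|t| + 1 ≥ n` -/
lemma exists_large (E : Finset ℤ) (hE : E.Nonempty) : ∃ t ∈ E, (E.card : ℤ) ≤ 2 * |t| + 1 := by
  obtain ⟨t, ht, hmax⟩ := Finset.exists_max_image E (fun t => |t|) hE
  refine ⟨t, ht, ?_⟩
  have hsub : E ⊆ Finset.Icc (-|t|) |t| := by
    intro x hx
    rw [Finset.mem_Icc]
    exact abs_le.1 (hmax x hx)
  have h1 := Finset.card_le_card hsub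
  rw [Int.card_Icc] at h1
  have h2 : (0 : ℤ) ≤ |t| := abs_nonneg t
  omega

lemma sum_v_le (n : ℕ) : ∀ E : Finset ℤ, E.card = n → ∑ t ∈ E, v t ≤ Real.sqrt n := by
  induction n with
  | zero =>
    intro E hE
    rw [Finset.card_eq_zero.1 hE]
    simp
  | succ n ih =>
    intro E hE
    have hne : E.Nonempty := Finset.card_pos.1 (by omega)
    obtain ⟨t, ht, hlarge⟩ := exists_large E hne
    have h1 := ih (E.erase t) (by rw [Finset.card_erase_of_mem ht, hE]; rfl)
    rw [← Finset.add_sum_erase E v ht]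
    rcases Nat.eq_zero_or_pos n with hn | hn
    · subst hn
      have : v t ≤ 1 := v_le_one t
      simp only [Nat.cast_zero, Real.sqrt_zero, zero_add, Nat.cast_one, Real.sqrt_one] at h1 ⊢
      linarith
    · have ht0 : t ≠ 0 := by
        rintro rfl
        rw [hE] at hlarge
        simp only [abs_zero] at hlarge
        push_cast at hlarge
        omega
      have hw : 4 * ((n : ℝ) + 2) ≤ w t := by
        unfold w
        rw [if_neg ht0]
        have h3 : ((n : ℝ) + 1) ≤ 2 * ((|t| : ℤ) : ℝ) + 1 := by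
          rw [hE] at hlarge
          exact_mod_cast hlarge
        linarith
      have hn0 : (0 : ℝ) ≤ n := by positivity
      set a := Real.sqrt ((n : ℝ) + 1) with ha
      set b := Real.sqrt (n : ℝ) with hb
      have ha2 : a ^ 2 = n + 1 := Real.sq_sqrt (by positivity)
      have hb2 : b ^ 2 = n := Real.sq_sqrt hn0
      have hapos : 0 < a := Real.sqrt_pos.2 (by positivity)
      have hb0 : 0 ≤ b := Real.sqrt_nonneg _
      have hba : b ≤ a := Real.sqrt_le_sqrt (by linarith)
      have hv : v t ≤ 1 / (2 * a) := by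
        unfold v
        refine one_div_le_one_div_of_le (by positivity) ?_
        have : 2 * a = Real.sqrt (4 * ((n : ℝ) + 1)) := by
          rw [Real.sqrt_mul (by norm_num), show (4 : ℝ) = 2 ^ 2 by norm_num,
            Real.sqrt_sq (by norm_num)]
        rw [this]
        exact Real.sqrt_le_sqrt (by linarith)
      have h4 : 1 / (2 * a) ≤ a - b := by
        rw [div_le_iff₀ (by positivity)]
        nlinarith
      have h5 : Real.sqrt ((n + 1 : ℕ) : ℝ) = a := by rw [ha]; push_cast; rfl
      rw [h5]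
      linarith

lemma quad_aux (v' : ℤ → ℝ) (f : ℤ → ℝ) : ∀ (E : Finset ℤ) (c D : ℝ),
    (∀ t ∈ E, 0 ≤ f t) → (∀ t ∈ E, f t ≤ 1) →
    (∀ E' ⊆ E, (c + ∑ t ∈ E', v' t) ^ 2 - E'.card ≤ D) →
    (c + ∑ t ∈ E, f t * v' t) ^ 2 - ∑ t ∈ E, f t ≤ D := by
  intro E
  induction E using Finset.induction_on with
  | empty =>
    intro c D _ _ h
    simpa using h ∅ subset_rfl
  | insert a E ha ih =>
    intro c D h0 h1 h
    rw [Finset.sum_insert ha, Finset.sum_insert ha]
    have hfa0 := h0 a (Finset.mem_insert_self _ _)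
    have hfa1 := h1 a (Finset.mem_insert_self _ _)
    have := ih (c + f a * v' a) (D + f a) (fun t ht => h0 t (Finset.mem_insert_of_mem ht))
      (fun t ht => h1 t (Finset.mem_insert_of_mem ht)) (by
        intro E' hE'
        have haE' : a ∉ E' := fun hh => ha (hE' hh)
        have h2 := h E' (hE'.trans (Finset.subset_insert _ _))
        have h3 := h (insert a E') (Finset.insert_subset_insert _ hE')
        rw [Finset.sum_insert haE', Finset.card_insert_of_notMem haE'] at h3
        push_cast at h3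
        set σ := ∑ t ∈ E', v' t
        set z := f a
        set u := v' a
        -- convexity
        have h4 : (c + z * u + σ) ^ 2 ≤ (1 - z) * (c + σ) ^ 2 + z * (c + (u + σ)) ^ 2 := by
          nlinarith [mul_nonneg (mul_nonneg hfa0 (sub_nonneg.2 hfa1)) (sq_nonneg u)]
        nlinarith)
    linarith

/-- for `0 ≤ α ≤ m` on `E`: `(Σ α v)² ≤ m Σ α` -/
lemma sum_mul_v_sq_le (E : Finset ℤ) (α : ℤ → ℝ) (m : ℝ) (h0 : ∀ t ∈ E, 0 ≤ α t)
    (hm : ∀ t ∈ E, α t ≤ m) : (∑ t ∈ E, α t * v t) ^ 2 ≤ m * ∑ t ∈ E, α t := by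
  rcases E.eq_empty_or_nonempty with rfl | ⟨e, he⟩
  · simp
  have hm0 : 0 ≤ m := (h0 e he).trans (hm e he)
  rcases hm0.eq_or_lt with hm' | hm'
  · have : ∀ t ∈ E, α t * v t = 0 := fun t ht => by
      have : α t = 0 := le_antisymm (hm' ▸ hm t ht) (h0 t ht)
      rw [this, zero_mul]
    rw [Finset.sum_eq_zero this, ← hm']
    simp
  have key := quad_aux v (fun t => α t / m) E 0 0 (fun t ht => div_nonneg (h0 t ht) hm'.le)
    (fun t ht => (div_le_one hm').2 (hm t ht)) (by
      intro E' _
      have h1 := sum_v_le E'.card E' rfl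
      have h2 : 0 ≤ ∑ t ∈ E', v t := Finset.sum_nonneg (fun t _ => (v_pos t).le)
      have h3 : (∑ t ∈ E', v t) ^ 2 ≤ (Real.sqrt E'.card) ^ 2 := pow_le_pow_left₀ h2 h1 2
      rw [Real.sq_sqrt (by positivity)] at h3
      linarith)
  have h1 : ∑ t ∈ E, α t / m * v t = (∑ t ∈ E, α t * v t) / m := by
    rw [Finset.sum_div]; exact Finset.sum_congr rfl (fun t _ => by ring)
  have h2 : ∑ t ∈ E, α t / m = (∑ t ∈ E, α t) / m := by rw [Finset.sum_div]
  rw [h1, h2, zero_add, div_pow, sub_nonpos, div_le_div_iff₀ (by positivity) hm'] at key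
  have h3 : (∑ t ∈ E, α t * v t) ^ 2 * m ≤ (m * ∑ t ∈ E, α t) * m := by nlinarith
  exact le_of_mul_le_mul_right h3 hm'

/-- **Second tensorisation inequality.** -/
theorem card_mul_le : ∀ (d : ℕ) (A B : Finset (Fin d → ℤ)) (M N : ℝ),
    (∀ x ∈ A, ∏ i, w (x i) ≤ M) → (∀ x ∈ B, ∏ i, w (x i) ≤ N) → A.Nonempty → B.Nonempty →
    ((A.card : ℝ) * B.card) ^ 2 ≤ ((A + B).card : ℝ) ^ 2 * (M * N) := by
  intro d
  induction d with
  | zero =>
    intro A B M N hM hN hA hB
    have huniv : ∀ X : Finset (Fin 0 → ℤ), X.Nonempty → X.card = 1 := by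
      intro X hX
      have h1 : X.card ≤ 1 := Finset.card_le_one.2 (fun a _ b _ => Subsingleton.elim a b)
      have h2 : 0 < X.card := Finset.card_pos.2 hX
      omega
    obtain ⟨a, ha⟩ := hA
    obtain ⟨b, hb⟩ := hB
    have h1 := hM a ha
    have h2 := hN b hb
    simp only [Finset.univ_eq_empty, Finset.prod_empty] at h1 h2
    rw [huniv A ⟨a, ha⟩, huniv B ⟨b, hb⟩, huniv _ (Finset.Nonempty.add ⟨a, ha⟩ ⟨b, hb⟩)]
    norm_num
    nlinarith
  | succ d ih =>
    intro A B M N hM hN hA hB
    have hpre : ∀ (t : ℤ) (y : Fin d → ℤ), ∏ i, w (pre t y i) = w t * ∏ i, w (y i) := by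
      intro t y
      simp [pre, Fin.prod_univ_succ]
    have hMs : ∀ t, ∀ y ∈ slice A t, ∏ i, w (y i) ≤ M / w t := by
      intro t y hy
      rw [le_div_iff₀ (w_pos t), mul_comm, ← hpre]
      exact hM _ (mem_slice.1 hy)
    have hNs : ∀ t, ∀ y ∈ slice B t, ∏ i, w (y i) ≤ N / w t := by
      intro t y hy
      rw [le_div_iff₀ (w_pos t), mul_comm, ← hpre]
      exact hN _ (mem_slice.1 hy)
    have hM0 : 0 ≤ M := by
      obtain ⟨x, hx⟩ := hA
      exact (Finset.prod_nonneg (fun i _ => (w_pos _).le)).trans (hM x hx)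
    have hN0 : 0 ≤ N := by
      obtain ⟨x, hx⟩ := hB
      exact (Finset.prod_nonneg (fun i _ => (w_pos _).le)).trans (hN x hx)
    set α : ℤ → ℝ := fun t => (slice A t).card * Real.sqrt (w t) with hα
    set β : ℤ → ℝ := fun t => (slice B t).card * Real.sqrt (w t) with hβ
    have hα0 : ∀ t, 0 ≤ α t := fun t => by simp only [hα]; positivity
    have hβ0 : ∀ t, 0 ≤ β t := fun t => by simp only [hβ]; positivity
    set R := Real.sqrt (M * N) with hR
    have hR0 : 0 ≤ R := Real.sqrt_nonneg _
    have hR2 : R ^ 2 = M * N := Real.sq_sqrt (mul_nonneg hM0 hN0)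
    have hstep : ∀ s ∈ heights A, ∀ t ∈ heights B,
        α s * β t ≤ R * (slice A s + slice B t).card := by
      intro s hs t ht
      have h1 := ih (slice A s) (slice B t) (M / w s) (N / w t) (hMs s) (hNs t)
        (mem_heights.1 hs) (mem_heights.1 ht)
      have hws := w_pos s
      have hwt := w_pos t
      have h2 : (α s * β t) ^ 2 ≤ (R * (slice A s + slice B t).card) ^ 2 := by
        have e1 : (α s * β t) ^ 2 = ((slice A s).card * (slice B t).card : ℝ) ^ 2 * (w s * w t) := by
          simp only [hα, hβ]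
          have e2 : Real.sqrt (w s) ^ 2 = w s := Real.sq_sqrt hws.le
          have e3 : Real.sqrt (w t) ^ 2 = w t := Real.sq_sqrt hwt.le
          calc _ = ((slice A s).card * (slice B t).card : ℝ) ^ 2 *
                (Real.sqrt (w s) ^ 2 * Real.sqrt (w t) ^ 2) := by ring
            _ = _ := by rw [e2, e3]
        rw [e1, mul_pow R, hR2]
        calc ((slice A s).card * (slice B t).card : ℝ) ^ 2 * (w s * w t)
            ≤ (((slice A s + slice B t).card : ℝ) ^ 2 * (M / w s * (N / w t))) * (w s * w t) :=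
              mul_le_mul_of_nonneg_right h1 (by positivity)
          _ = M * N * ((slice A s + slice B t).card : ℝ) ^ 2 := by
              field_simp
      exact (abs_le_of_sq_le_sq' h2 (by positivity)).2
    obtain ⟨t0, ht0, hmaxA⟩ := Finset.exists_max_image (heights A) α (heights_nonempty hA)
    obtain ⟨u0, hu0, hmaxB⟩ := Finset.exists_max_image (heights B) β (heights_nonempty hB)
    -- sums along one slice
    have h1 : (∑ t ∈ heights A, α t) * β u0 ≤ R * (A + B).card := by
      calc (∑ t ∈ heights A, α t) * β u0 = ∑ t ∈ heights A, α t * β u0 := by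
            rw [Finset.sum_mul]
        _ ≤ ∑ t ∈ heights A, R * (slice (A + B) (t + u0)).card := by
            refine Finset.sum_le_sum (fun t ht => (hstep t ht u0 hu0).trans ?_)
            exact mul_le_mul_of_nonneg_left (card_slice_add_le A B t u0) hR0
        _ = R * ∑ s ∈ (heights A).map (addRightEmbedding u0), ((slice (A + B) s).card : ℝ) := by
            rw [Finset.sum_map, Finset.mul_sum]
            rfl
        _ ≤ R * (A + B).card := mul_le_mul_of_nonneg_left (sum_card_slices_le _ _) hR0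
    have h2 : (∑ t ∈ heights B, β t) * α t0 ≤ R * (A + B).card := by
      calc (∑ t ∈ heights B, β t) * α t0 = ∑ t ∈ heights B, α t0 * β t := by
            rw [Finset.sum_mul]; exact Finset.sum_congr rfl (fun t _ => mul_comm _ _)
        _ ≤ ∑ t ∈ heights B, R * (slice (A + B) (t0 + t)).card := by
            refine Finset.sum_le_sum (fun t ht => (hstep t0 ht0 t ht).trans ?_)
            exact mul_le_mul_of_nonneg_left (card_slice_add_le A B t0 t) hR0
        _ = R * ∑ s ∈ (heights B).map (addLeftEmbedding t0), ((slice (A + B) s).card : ℝ) := by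
            rw [Finset.sum_map, Finset.mul_sum]
            rfl
        _ ≤ R * (A + B).card := mul_le_mul_of_nonneg_left (sum_card_slices_le _ _) hR0
    have hcA : (A.card : ℝ) = ∑ t ∈ heights A, α t * v t := by
      rw [card_slices A (heights A) subset_rfl]
      refine Finset.sum_congr rfl (fun t _ => ?_)
      simp only [hα, v]
      have := (Real.sqrt_pos.2 (w_pos t)).ne'
      field_simp
    have hcB : (B.card : ℝ) = ∑ t ∈ heights B, β t * v t := by
      rw [card_slices B (heights B) subset_rfl]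
      refine Finset.sum_congr rfl (fun t _ => ?_)
      simp only [hβ, v]
      have := (Real.sqrt_pos.2 (w_pos t)).ne'
      field_simp
    have h3 := sum_mul_v_sq_le (heights A) α (α t0) (fun t _ => hα0 t) hmaxA
    have h4 := sum_mul_v_sq_le (heights B) β (β u0) (fun t _ => hβ0 t) hmaxB
    rw [← hcA] at h3
    rw [← hcB] at h4
    set SA := ∑ t ∈ heights A, α t
    set SB := ∑ t ∈ heights B, β t
    calc ((A.card : ℝ) * B.card) ^ 2 = (A.card : ℝ) ^ 2 * (B.card : ℝ) ^ 2 := by ring
      _ ≤ (α t0 * SA) * (β u0 * SB) := mul_le_mul h3 h4 (sq_nonneg _) (le_trans (sq_nonneg _) h3)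
      _ = (SA * β u0) * (SB * α t0) := by ring
      _ ≤ (R * (A + B).card) * (R * (A + B).card) := by
          refine mul_le_mul h1 h2 ?_ (by positivity)
          exact mul_nonneg (Finset.sum_nonneg (fun t _ => hβ0 t)) (hα0 _)
      _ = R ^ 2 * ((A + B).card : ℝ) ^ 2 := by ring
      _ = _ := by rw [hR2]; ring

end Helper12DS
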